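import Mathlib

/-!
Non-vanishing functions in `H^p`: Taylor coefficients and circle averages (`MP_ff17e6_an`).
-/

set_option autoImplicit false

open Metric Set Filter Topology

namespace Pool.Agent.H82.Hp

/-- Taylor coefficient at `0` -/
noncomputable def co (f : ℂ → ℂ) (k : ℕ) : ℂ := iteratedDeriv k f 0 / (k.factorial : ℂ)

lemma co_zero (f : ℂ → ℂ) : co f 0 = f 0 := by simp [co]

lemma co_congr {f g : ℂ → ℂ} (h : EqOn f g (ball 0 1)) (k : ℕ) : co f k = co g k := by
  unfold co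
  congr 1
  apply Filter.EventuallyEq.iteratedDeriv_eq
  filter_upwards [ball_mem_nhds (0 : ℂ) one_pos] with z hz using h hz

lemma analyticAt_zero {f : ℂ → ℂ} (hf : DifferentiableOn ℂ f (ball 0 1)) : AnalyticAt ℂ f 0 :=
  hf.analyticAt (ball_mem_nhds (0 : ℂ) one_pos)

/-- a holomorphic logarithm on the disc -/
lemma exists_log {f : ℂ → ℂ} (hf : DifferentiableOn ℂ f (ball 0 1))
    (h0 : ∀ z ∈ ball (0 : ℂ) 1, f z ≠ 0) :
    ∃ h : ℂ → ℂ, DifferentiableOn ℂ h (ball 0 1) ∧ ∀ z ∈ ball (0 : ℂ) 1, f z = Complex.exp (h z) := by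
  have hd : DifferentiableOn ℂ (fun z => deriv f z / f z) (ball 0 1) :=
    (hf.deriv isOpen_ball).div hf h0
  obtain ⟨g, hg⟩ := hd.isExactOn_ball
  have hgd : DifferentiableOn ℂ g (ball 0 1) :=
    fun z hz => (hg z hz).differentiableAt.differentiableWithinAt
  have hz0 : (0 : ℂ) ∈ ball (0 : ℂ) 1 := mem_ball_self one_pos
  refine ⟨fun z => g z - g 0 + Complex.log (f 0), (hgd.sub_const _).add_const _, ?_⟩
  have hconst : ∀ z ∈ ball (0 : ℂ) 1, f z * Complex.exp (-g z) = f 0 * Complex.exp (-g 0) := by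
    have hdiff : DifferentiableOn ℂ (fun z => f z * Complex.exp (-g z)) (ball 0 1) :=
      hf.mul hgd.neg.cexp
    have hder : ∀ z ∈ ball (0 : ℂ) 1, fderivWithin ℂ (fun z => f z * Complex.exp (-g z))
        (ball 0 1) z = 0 := by
      intro z hz
      have h1 : HasDerivAt f (deriv f z) z :=
        (hf.differentiableAt (isOpen_ball.mem_nhds hz)).hasDerivAt
      have h2 : HasDerivAt (fun z => Complex.exp (-g z))
          (Complex.exp (-g z) * (-(deriv f z / f z))) z := ((hg z hz).neg).cexp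
      have h3 : HasDerivAt (fun z => f z * Complex.exp (-g z)) _ z := h1.mul h2
      have h4 : deriv f z * Complex.exp (-g z) + f z * (Complex.exp (-g z) * (-(deriv f z / f z)))
          = 0 := by
        have := h0 z hz
        field_simp
        ring
      rw [h4] at h3
      have h5 := h3.hasFDerivAt.hasFDerivWithinAt (s := ball 0 1)
      rw [h5.fderivWithin (isOpen_ball.uniqueDiffWithinAt hz)]
      ext
      simp
    intro z hz
    exact (convex_ball (0 : ℂ) 1).is_const_of_fderivWithin_eq_zero hdiff hder hz hz0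
  intro z hz
  have h1 := hconst z hz
  rw [Complex.exp_add, Complex.exp_sub, Complex.exp_log (h0 0 hz0)]
  rw [Complex.exp_neg, Complex.exp_neg] at h1
  have e1 := Complex.exp_ne_zero (g z)
  have e2 := Complex.exp_ne_zero (g 0)
  field_simp at h1 ⊢
  exact h1

/-! ### circle averages -/

lemma diffContOnCl {h : ℂ → ℂ} (hh : DifferentiableOn ℂ h (ball 0 1)) {ρ : ℝ} (h0 : 0 < ρ)
    (h1 : ρ < 1) : DiffContOnCl ℂ h (ball 0 ρ) := by
  apply DifferentiableOn.diffContOnCl
  rw [closure_ball _ h0.ne']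
  exact hh.mono (closedBall_subset_ball h1)

lemma avg_div_pow {h : ℂ → ℂ} (hh : DifferentiableOn ℂ h (ball 0 1)) {ρ : ℝ} (h0 : 0 < ρ)
    (h1 : ρ < 1) (k : ℕ) : Real.circleAverage (fun z => h z / z ^ k) 0 ρ = co h k := by
  rw [Real.circleAverage_eq_circleIntegral h0.ne']
  have h2 := (diffContOnCl hh h0 h1).circleIntegral_one_div_sub_center_pow_smul h0 k
  have h3 : (∮ z in C(0, ρ), (z - 0)⁻¹ • (h z / z ^ k))
      = ∮ z in C(0, ρ), (1 / (z - 0) ^ (k + 1)) • h z := by
    congr 1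
    ext z
    simp only [sub_zero, smul_eq_mul]
    rw [pow_succ]
    by_cases hz : z = 0
    · subst hz; simp
    · field_simp
  rw [h3, h2, co]
  have hpi : (2 * (Real.pi : ℂ) * Complex.I) ≠ 0 := Complex.two_pi_I_ne_zero
  have hk : (k.factorial : ℂ) ≠ 0 := by exact_mod_cast Nat.factorial_ne_zero k
  simp only [smul_eq_mul]
  field_simp

lemma avg_mul_pow {h : ℂ → ℂ} (hh : DifferentiableOn ℂ h (ball 0 1)) {ρ : ℝ} (h0 : 0 < ρ)
    (h1 : ρ < 1) {k : ℕ} (hk : 1 ≤ k) : Real.circleAverage (fun z => h z * z ^ k) 0 ρ = 0 := by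
  have h2 : DifferentiableOn ℂ (fun z => h z * z ^ k) (ball 0 1) :=
    hh.mul (differentiable_pow k).differentiableOn
  have h3 := (diffContOnCl h2 h0 h1)
  rw [← abs_of_pos h0] at h3
  rw [DiffContOnCl.circleAverage h3]
  simp [zero_pow (by omega : k ≠ 0)]

lemma avg_self {h : ℂ → ℂ} (hh : DifferentiableOn ℂ h (ball 0 1)) {ρ : ℝ} (h0 : 0 < ρ)
    (h1 : ρ < 1) : Real.circleAverage h 0 ρ = h 0 := by
  have h3 := (diffContOnCl hh h0 h1)
  rw [← abs_of_pos h0] at h3
  exact DiffContOnCl.circleAverage h3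

/-! ### the recurrence for `f = exp h` -/

lemma rec_exp {f h : ℂ → ℂ} (hh : DifferentiableOn ℂ h (ball 0 1))
    (hfh : ∀ z ∈ ball (0 : ℂ) 1, f z = Complex.exp (h z)) (k : ℕ) :
    ((k : ℂ) + 1) * co f (k + 1)
      = ∑ i ∈ Finset.range (k + 1), ((i : ℂ) + 1) * co h (i + 1) * co f (k - i) := by
  have hfd : DifferentiableOn ℂ f (ball 0 1) := by
    have : DifferentiableOn ℂ (fun z => Complex.exp (h z)) (ball 0 1) := hh.cexp
    exact this.congr hfh
  have hfa := analyticAt_zero hfd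
  have hha := analyticAt_zero hh
  have h1 : deriv f =ᶠ[𝓝 0] (deriv h * f) := by
    filter_upwards [ball_mem_nhds (0 : ℂ) one_pos] with z hz
    have e1 : f =ᶠ[𝓝 z] fun z => Complex.exp (h z) := by
      filter_upwards [isOpen_ball.mem_nhds hz] with w hw using hfh w hw
    have e2 : HasDerivAt h (deriv h z) z :=
      (hh.differentiableAt (isOpen_ball.mem_nhds hz)).hasDerivAt
    rw [e1.deriv_eq, e2.cexp.deriv, Pi.mul_apply, hfh z hz]
    ring
  have h2 : iteratedDeriv (k + 1) f 0 = iteratedDeriv k (deriv h * f) 0 := by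
    rw [iteratedDeriv_succ']
    exact h1.iteratedDeriv_eq k
  have h3 : ContDiffAt ℂ k (deriv h) 0 := hha.deriv.contDiffAt
  have h4 : ContDiffAt ℂ k f 0 := hfa.contDiffAt
  rw [iteratedDeriv_mul h3 h4] at h2
  have h5 : co f (k + 1) = (∑ i ∈ Finset.range (k + 1),
      (k.choose i : ℂ) * iteratedDeriv i (deriv h) 0 * iteratedDeriv (k - i) f 0)
        / ((k + 1).factorial : ℂ) := by rw [co, h2]
  rw [h5, Finset.sum_div, Finset.mul_sum]
  apply Finset.sum_congr rfl
  intro i hi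
  rw [Finset.mem_range] at hi
  rw [← iteratedDeriv_succ', co, co]
  have hki : (k.choose i : ℂ) = (k.factorial : ℂ) / ((i.factorial : ℂ) * ((k - i).factorial : ℂ)) := by
    rw [Nat.choose_eq_factorial_div_factorial (by omega : i ≤ k),
      Nat.cast_div (Nat.factorial_mul_factorial_dvd_factorial (by omega))]
    · push_cast; rfl
    · exact_mod_cast Nat.mul_ne_zero (Nat.factorial_ne_zero _) (Nat.factorial_ne_zero _)
  rw [hki, Nat.factorial_succ k, Nat.factorial_succ i]
  have f1 : (k.factorial : ℂ) ≠ 0 := by exact_mod_cast Nat.factorial_ne_zero k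
  have f2 : (i.factorial : ℂ) ≠ 0 := by exact_mod_cast Nat.factorial_ne_zero i
  have f3 : ((k - i).factorial : ℂ) ≠ 0 := by exact_mod_cast Nat.factorial_ne_zero (k - i)
  have f4 : (k : ℂ) + 1 ≠ 0 := by exact_mod_cast Nat.succ_ne_zero k
  have f5 : (i : ℂ) + 1 ≠ 0 := by exact_mod_cast Nat.succ_ne_zero i
  push_cast
  field_simp

/-- direct coefficient relations -/
lemma coeff_rel {f h : ℂ → ℂ} (hh : DifferentiableOn ℂ h (ball 0 1))
    (hfh : ∀ z ∈ ball (0 : ℂ) 1, f z = Complex.exp (h z)) {n : ℕ}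
    (hf : ∀ k, 1 ≤ k → 2 * k < n → co f k = 0) :
    (∀ k, 1 ≤ k → 2 * k < n → co h k = 0) ∧
    (∀ k, n ≤ 2 * k → k < n → co f k = co f 0 * co h k) := by
  have hf0 : co f 0 ≠ 0 := by
    rw [co_zero, hfh 0 (mem_ball_self one_pos)]
    exact Complex.exp_ne_zero _
  have hA : ∀ k, 1 ≤ k → 2 * k < n → co h k = 0 := by
    intro k
    induction k using Nat.strong_induction_on with
    | _ k ih =>
      intro hk1 hk2
      obtain ⟨j, rfl⟩ := Nat.exists_eq_succ_of_ne_zero (by omega : k ≠ 0)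
      have h1 := rec_exp hh hfh j
      rw [hf _ hk1 hk2, mul_zero, Finset.sum_range_succ] at h1
      have h2 : ∑ i ∈ Finset.range j, ((i : ℂ) + 1) * co h (i + 1) * co f (j - i) = 0 := by
        apply Finset.sum_eq_zero
        intro i hi
        rw [Finset.mem_range] at hi
        rw [ih (i + 1) (by omega) (by omega) (by omega)]
        ring
      rw [h2, Nat.sub_self, zero_add] at h1
      have h3 : (j : ℂ) + 1 ≠ 0 := by exact_mod_cast Nat.succ_ne_zero j
      have h4 := h1.symm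
      rcases mul_eq_zero.mp h4 with h5 | h5
      · rcases mul_eq_zero.mp h5 with h6 | h6
        · exact absurd h6 h3
        · exact h6
      · exact absurd h5 hf0
  refine ⟨hA, ?_⟩
  intro k hk1 hk2
  by_cases hk0 : k = 0
  · subst hk0
    omega
  obtain ⟨j, rfl⟩ := Nat.exists_eq_succ_of_ne_zero hk0
  have h1 := rec_exp hh hfh j
  rw [Finset.sum_range_succ] at h1
  have h2 : ∑ i ∈ Finset.range j, ((i : ℂ) + 1) * co h (i + 1) * co f (j - i) = 0 := by
    apply Finset.sum_eq_zero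
    intro i hi
    rw [Finset.mem_range] at hi
    by_cases hc : 2 * (i + 1) < n
    · rw [hA (i + 1) (by omega) hc]
      ring
    · rw [hf (j - i) (by omega) (by omega)]
      ring
  rw [h2, Nat.sub_self, zero_add] at h1
  have h3 : (j : ℂ) + 1 ≠ 0 := by exact_mod_cast Nat.succ_ne_zero j
  have h4 : ((j : ℂ) + 1) * co f (j + 1) = ((j : ℂ) + 1) * (co f 0 * co h (j + 1)) := by
    rw [h1]; ring
  exact mul_left_cancel₀ h3 h4

/-- the `n`-th coefficient, even case -/
lemma coeff_even {f h : ℂ → ℂ} (hh : DifferentiableOn ℂ h (ball 0 1))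
    (hfh : ∀ z ∈ ball (0 : ℂ) 1, f z = Complex.exp (h z)) {n m : ℕ} (hm : 1 ≤ m) (hnm : n = 2 * m)
    (hf : ∀ k, 1 ≤ k → 2 * k < n → co f k = 0) :
    co f n = co f 0 * (co h n + (co h m) ^ 2 / 2) := by
  obtain ⟨hA, hB⟩ := coeff_rel hh hfh hf
  obtain ⟨j, hj⟩ := Nat.exists_eq_succ_of_ne_zero (by omega : n ≠ 0)
  obtain ⟨l, hl⟩ := Nat.exists_eq_succ_of_ne_zero (by omega : m ≠ 0)
  have h1 := rec_exp hh hfh j
  rw [Finset.sum_range_succ] at h1
  have h2 : ∑ i ∈ Finset.range j, ((i : ℂ) + 1) * co h (i + 1) * co f (j - i)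
      = ((l : ℂ) + 1) * co h (l + 1) * co f (j - l) := by
    apply Finset.sum_eq_single_of_mem l (Finset.mem_range.mpr (by omega))
    intro i hi hil
    rw [Finset.mem_range] at hi
    by_cases hc : 2 * (i + 1) < n
    · rw [hA (i + 1) (by omega) hc]
      ring
    · rw [hf (j - i) (by omega) (by omega)]
      ring
  have h5 : j - l = m := by omega
  rw [h2, h5, Nat.sub_self] at h1
  have h6 := hB m (by omega) (by omega)
  rw [h6] at h1
  have e1 : j + 1 = n := by omega
  have e2 : l + 1 = m := by omega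
  rw [e1, e2] at h1
  have e3 : (j : ℂ) + 1 = n := by exact_mod_cast e1
  have e4 : (l : ℂ) + 1 = m := by exact_mod_cast e2
  rw [e3, e4] at h1
  have e5 : (n : ℂ) = 2 * m := by exact_mod_cast hnm
  have e6 : (n : ℂ) ≠ 0 := by exact_mod_cast (by omega : n ≠ 0)
  have h7 : (n : ℂ) * co f n = n * (co f 0 * (co h n + (co h m) ^ 2 / 2)) := by
    rw [h1, e5]
    ring
  exact mul_left_cancel₀ e6 h7

/-- the `n`-th coefficient, odd case -/
lemma coeff_odd {f h : ℂ → ℂ} (hh : DifferentiableOn ℂ h (ball 0 1))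
    (hfh : ∀ z ∈ ball (0 : ℂ) 1, f z = Complex.exp (h z)) {n : ℕ} (hodd : Odd n)
    (hf : ∀ k, 1 ≤ k → 2 * k < n → co f k = 0) :
    co f n = co f 0 * co h n := by
  obtain ⟨hA, hB⟩ := coeff_rel hh hfh hf
  obtain ⟨q, hq⟩ := hodd
  obtain ⟨j, hj⟩ := Nat.exists_eq_succ_of_ne_zero (by omega : n ≠ 0)
  have h1 := rec_exp hh hfh j
  rw [Finset.sum_range_succ] at h1
  have h2 : ∑ i ∈ Finset.range j, ((i : ℂ) + 1) * co h (i + 1) * co f (j - i) = 0 := by
    apply Finset.sum_eq_zero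
    intro i hi
    rw [Finset.mem_range] at hi
    by_cases hc : 2 * (i + 1) < n
    · rw [hA (i + 1) (by omega) hc]
      ring
    · rw [hf (j - i) (by omega) (by omega)]
      ring
  rw [h2, Nat.sub_self, zero_add] at h1
  have e1 : j + 1 = n := by omega
  rw [e1] at h1
  have e3 : (j : ℂ) + 1 = n := by exact_mod_cast e1
  rw [e3] at h1
  have e6 : (n : ℂ) ≠ 0 := by exact_mod_cast (by omega : n ≠ 0)
  have h7 : (n : ℂ) * co f n = n * (co f 0 * co h n) := by
    rw [h1]
    ring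
  exact mul_left_cancel₀ e6 h7

/-- converse relations: if the first coefficients of `h` vanish -/
lemma coeff_conv {f h : ℂ → ℂ} (hh : DifferentiableOn ℂ h (ball 0 1))
    (hfh : ∀ z ∈ ball (0 : ℂ) 1, f z = Complex.exp (h z)) {n : ℕ} (hn : 1 ≤ n)
    (hc : ∀ k, 1 ≤ k → k < n → co h k = 0) :
    (∀ k, 1 ≤ k → k < n → co f k = 0) ∧ co f n = co f 0 * co h n := by
  constructor
  · intro k hk1 hk2
    obtain ⟨j, rfl⟩ := Nat.exists_eq_succ_of_ne_zero (by omega : k ≠ 0)
    have h1 := rec_exp hh hfh j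
    have h2 : ∑ i ∈ Finset.range (j + 1), ((i : ℂ) + 1) * co h (i + 1) * co f (j - i) = 0 := by
      apply Finset.sum_eq_zero
      intro i hi
      rw [Finset.mem_range] at hi
      rw [hc (i + 1) (by omega) (by omega)]
      ring
    rw [h2] at h1
    have h3 : (j : ℂ) + 1 ≠ 0 := by exact_mod_cast Nat.succ_ne_zero j
    exact (mul_eq_zero.mp h1).resolve_left h3
  · obtain ⟨j, hj⟩ := Nat.exists_eq_succ_of_ne_zero (by omega : n ≠ 0)
    have h1 := rec_exp hh hfh j
    rw [Finset.sum_range_succ] at h1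
    have h2 : ∑ i ∈ Finset.range j, ((i : ℂ) + 1) * co h (i + 1) * co f (j - i) = 0 := by
      apply Finset.sum_eq_zero
      intro i hi
      rw [Finset.mem_range] at hi
      rw [hc (i + 1) (by omega) (by omega)]
      ring
    rw [h2, Nat.sub_self, zero_add] at h1
    have e1 : j + 1 = n := by omega
    rw [e1] at h1
    have e3 : (j : ℂ) + 1 = n := by exact_mod_cast e1
    rw [e3] at h1
    have e6 : (n : ℂ) ≠ 0 := by exact_mod_cast (by omega : n ≠ 0)
    have h7 : (n : ℂ) * co f n = n * (co f 0 * co h n) := by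
      rw [h1]
      ring
    exact mul_left_cancel₀ e6 h7

/-! ### pairing of powers with real parts -/

lemma conj_on_circle {ρ : ℝ} (h0 : 0 < ρ) {z : ℂ} (hz : z ∈ sphere (0 : ℂ) |ρ|) :
    (starRingEnd ℂ) (z / ρ) = ρ / z := by
  rw [mem_sphere_zero_iff_norm, abs_of_pos h0] at hz
  have hz0 : z ≠ 0 := by
    intro h
    rw [h, norm_zero] at hz
    exact h0.ne hz
  rw [map_div₀, Complex.conj_ofReal, div_eq_div_iff (by exact_mod_cast h0.ne') hz0, mul_comm,
    Complex.mul_conj, Complex.normSq_eq_norm_sq, hz]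
  push_cast
  ring

lemma circleIntegrable_of {h : ℂ → ℂ} (hh : DifferentiableOn ℂ h (ball 0 1)) {ρ : ℝ} (h0 : 0 < ρ)
    (h1 : ρ < 1) : ContinuousOn h (sphere 0 |ρ|) := by
  rw [abs_of_pos h0]
  exact hh.continuousOn.mono (sphere_subset_closedBall.trans (closedBall_subset_ball h1))

/-- `avg ((ρ/z)^k Re h) = ρ^k c_k / 2` -/
lemma avg_neg_pow_re {h : ℂ → ℂ} (hh : DifferentiableOn ℂ h (ball 0 1)) {ρ : ℝ} (h0 : 0 < ρ)
    (h1 : ρ < 1) {k : ℕ} (hk : 1 ≤ k) :
    Real.circleAverage (fun z => ((ρ : ℂ) / z) ^ k * ((h z).re : ℂ)) 0 ρ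
      = (ρ : ℂ) ^ k * co h k / 2 := by
  have hρ : (ρ : ℂ) ≠ 0 := by exact_mod_cast h0.ne'
  have e1 : EqOn (fun z => ((ρ : ℂ) / z) ^ k * ((h z).re : ℂ))
      (fun z => ((ρ : ℂ) ^ k / 2) • (h z / z ^ k) + ((1 / (2 * (ρ : ℂ) ^ k)) •
        (starRingEnd ℂ) (h z * z ^ k))) (sphere 0 |ρ|) := by
    intro z hz
    have hz' := hz
    rw [mem_sphere_zero_iff_norm, abs_of_pos h0] at hz'
    have hz0 : z ≠ 0 := by
      intro h
      rw [h, norm_zero] at hz'
      exact h0.ne hz'
    have hc := conj_on_circle h0 hz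
    have hc' : (starRingEnd ℂ) z = ρ ^ 2 / z := by
      rw [map_div₀, Complex.conj_ofReal] at hc
      field_simp at hc ⊢
      linear_combination hc
    simp only [smul_eq_mul, map_mul, map_pow]
    rw [hc', Complex.re_eq_add_conj, div_pow, div_pow, ← pow_mul]
    have hzk : z ^ k ≠ 0 := pow_ne_zero _ hz0
    have hρk : (ρ : ℂ) ^ k ≠ 0 := pow_ne_zero _ hρ
    have e3 : (ρ : ℂ) ^ (2 * k) = (ρ : ℂ) ^ k * (ρ : ℂ) ^ k := by rw [two_mul, pow_add]
    rw [e3]
    field_simp
  rw [Real.circleAverage_congr_sphere e1]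
  have c1' : ContinuousOn (fun z => h z / z ^ k) (sphere 0 |ρ|) := by
    apply (circleIntegrable_of hh h0 h1).div (continuous_pow k).continuousOn
    intro z hz
    rw [mem_sphere_zero_iff_norm, abs_of_pos h0] at hz
    apply pow_ne_zero
    intro h
    rw [h, norm_zero] at hz
    exact h0.ne hz
  have c1 : CircleIntegrable (fun z => ((ρ : ℂ) ^ k / 2) • (h z / z ^ k)) 0 ρ :=
    ContinuousOn.circleIntegrable' (c1'.const_smul ((ρ : ℂ) ^ k / 2))
  have c2' : ContinuousOn (fun z => h z * z ^ k) (sphere 0 |ρ|) :=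
    (circleIntegrable_of hh h0 h1).mul (continuous_pow k).continuousOn
  have c2'' : ContinuousOn (fun z => (starRingEnd ℂ) (h z * z ^ k)) (sphere 0 |ρ|) :=
    Complex.continuous_conj.comp_continuousOn c2'
  have c2 : CircleIntegrable (fun z => (1 / (2 * (ρ : ℂ) ^ k)) •
        (starRingEnd ℂ) (h z * z ^ k)) 0 ρ :=
    ContinuousOn.circleIntegrable' (c2''.const_smul (1 / (2 * (ρ : ℂ) ^ k)))
  rw [Real.circleAverage_fun_add c1 c2, Real.circleAverage_fun_smul, Real.circleAverage_fun_smul,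
    avg_div_pow hh h0 h1]
  have e2 : Real.circleAverage (fun z => (starRingEnd ℂ) (h z * z ^ k)) 0 ρ = 0 := by
    have h3 := (Complex.conjCLE : ℂ →L[ℝ] ℂ).circleAverage_comp_comm
      (f := fun z => h z * z ^ k) (c := 0) (R := ρ) (c2'.circleIntegrable')
    simp only [Complex.conjCLE_apply, ContinuousLinearEquiv.coe_coe] at h3
    rw [avg_mul_pow hh h0 h1 hk, map_zero] at h3
    exact h3
  rw [e2]
  simp only [smul_eq_mul, mul_zero, add_zero]
  ring

end Pool.Agent.H82.Hp
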