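import Mathlib
import Pool.Agent.H82.Hp.Basic

/-!
The Gibbs inequality on circles (`MP_ff17e6_an`).
-/

set_option autoImplicit false

open Metric Set Filter Topology

namespace Pool.Agent.H82.Hp

lemma norm_z {ρ : ℝ} (h0 : 0 < ρ) {z : ℂ} (hz : z ∈ sphere (0 : ℂ) |ρ|) : ‖z‖ = ρ := by
  rwa [mem_sphere_zero_iff_norm, abs_of_pos h0] at hz

lemma z_ne {ρ : ℝ} (h0 : 0 < ρ) {z : ℂ} (hz : z ∈ sphere (0 : ℂ) |ρ|) : z ≠ 0 := by
  intro h
  have := norm_z h0 hz
  rw [h, norm_zero] at this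
  exact h0.ne this

lemma mem_ball_of {ρ : ℝ} (h0 : 0 < ρ) (h1 : ρ < 1) {z : ℂ} (hz : z ∈ sphere (0 : ℂ) |ρ|) :
    z ∈ ball (0 : ℂ) 1 := by
  rw [mem_ball_zero_iff, norm_z h0 hz]
  exact h1

/-- pairing with the real part of a power -/
lemma avg_re_re {h : ℂ → ℂ} (hh : DifferentiableOn ℂ h (ball 0 1)) {ρ : ℝ} (h0 : 0 < ρ)
    (h1 : ρ < 1) {k : ℕ} (hk : 1 ≤ k) (α : ℂ) :
    Real.circleAverage (fun z => (α * (z / ρ) ^ k).re * (h z).re) 0 ρ
      = ρ ^ k * ((starRingEnd ℂ) α * co h k).re / 2 := by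
  have e1 : EqOn (fun z => (α * (z / ρ) ^ k).re * (h z).re)
      (Complex.reCLM ∘ fun z => (starRingEnd ℂ) α • (((ρ : ℂ) / z) ^ k * ((h z).re : ℂ)))
      (sphere 0 |ρ|) := by
    intro z hz
    have hc := conj_on_circle h0 hz
    have h2 : ((ρ : ℂ) / z) ^ k = (starRingEnd ℂ) ((z / ρ) ^ k) := by rw [map_pow, hc]
    simp only [Function.comp_apply, Complex.reCLM_apply, smul_eq_mul]
    rw [h2, ← mul_assoc, ← map_mul, Complex.re_mul_ofReal, Complex.conj_re]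
  rw [Real.circleAverage_congr_sphere e1]
  have c1 : ContinuousOn (fun z : ℂ => ((ρ : ℂ) / z) ^ k * ((h z).re : ℂ)) (sphere 0 |ρ|) := by
    apply ContinuousOn.mul
    · apply ContinuousOn.pow
      exact continuousOn_const.div continuousOn_id (fun z hz => z_ne h0 hz)
    · exact Complex.continuous_ofReal.comp_continuousOn
        (Complex.continuous_re.comp_continuousOn (circleIntegrable_of hh h0 h1))
  have c2 : ContinuousOn (fun z : ℂ => (starRingEnd ℂ) α • (((ρ : ℂ) / z) ^ k * ((h z).re : ℂ)))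
      (sphere 0 |ρ|) := c1.const_smul ((starRingEnd ℂ) α)
  rw [ContinuousLinearMap.circleAverage_comp_comm _ c2.circleIntegrable',
    Real.circleAverage_fun_smul, avg_neg_pow_re hh h0 h1 hk]
  simp only [Complex.reCLM_apply, smul_eq_mul]
  rw [show (starRingEnd ℂ) α * ((ρ : ℂ) ^ k * co h k / 2)
    = (((ρ ^ k / 2 : ℝ)) : ℂ) * ((starRingEnd ℂ) α * co h k) by push_cast; ring,
    Complex.re_ofReal_mul]
  ring

lemma avg_re {h : ℂ → ℂ} (hh : DifferentiableOn ℂ h (ball 0 1)) {ρ : ℝ} (h0 : 0 < ρ)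
    (h1 : ρ < 1) : Real.circleAverage (fun z => (h z).re) 0 ρ = (h 0).re := by
  have h2 := Complex.reCLM.circleAverage_comp_comm (f := h) (c := 0) (R := ρ)
    (circleIntegrable_of hh h0 h1).circleIntegrable'
  rw [avg_self hh h0 h1] at h2
  exact h2

/-- the trigonometric polynomial -/
noncomputable def TT (ρ s τ : ℝ) (m n : ℕ) (α β z : ℂ) : ℝ :=
  1 + 2 * s * (α * (z / ρ) ^ m).re + 2 * τ * (β * (z / ρ) ^ n).re

lemma continuousOn_TT (ρ s τ : ℝ) (m n : ℕ) (α β : ℂ) :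
    Continuous (TT ρ s τ m n α β) := by
  unfold TT
  fun_prop

lemma avg_TT {h : ℂ → ℂ} (hh : DifferentiableOn ℂ h (ball 0 1)) {ρ : ℝ} (h0 : 0 < ρ)
    (h1 : ρ < 1) {m n : ℕ} (hm : 1 ≤ m) (hn : 1 ≤ n) (s τ : ℝ) (α β : ℂ) :
    Real.circleAverage (fun z => TT ρ s τ m n α β z * (h z).re) 0 ρ
      = (h 0).re + s * ρ ^ m * ((starRingEnd ℂ) α * co h m).re
        + τ * ρ ^ n * ((starRingEnd ℂ) β * co h n).re := by
  have e1 : (fun z => TT ρ s τ m n α β z * (h z).re) = fun z => ((h z).re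
      + (2 * s) • ((α * (z / ρ) ^ m).re * (h z).re))
      + (2 * τ) • ((β * (z / ρ) ^ n).re * (h z).re) := by
    ext z
    simp only [TT, smul_eq_mul]
    ring
  have hre : ContinuousOn (fun z => (h z).re) (sphere 0 |ρ|) :=
    Complex.continuous_re.comp_continuousOn (circleIntegrable_of hh h0 h1)
  have c1 : ∀ (γ : ℂ) (k : ℕ), ContinuousOn (fun z => (γ * (z / ρ) ^ k).re * (h z).re)
      (sphere 0 |ρ|) := by
    intro γ k
    apply ContinuousOn.mul _ hre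
    apply Continuous.continuousOn
    fun_prop
  have c2 : CircleIntegrable (fun z => (2 * s) • ((α * (z / ρ) ^ m).re * (h z).re)) 0 ρ :=
    ContinuousOn.circleIntegrable' ((c1 α m).const_smul (2 * s))
  have c3 : CircleIntegrable (fun z => (2 * τ) • ((β * (z / ρ) ^ n).re * (h z).re)) 0 ρ :=
    ContinuousOn.circleIntegrable' ((c1 β n).const_smul (2 * τ))
  have c4 : CircleIntegrable (fun z => (h z).re) 0 ρ := hre.circleIntegrable'
  have c5 : CircleIntegrable (fun z => (h z).re + (2 * s) • ((α * (z / ρ) ^ m).re * (h z).re)) 0 ρ :=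
    c4.add c2
  rw [e1, Real.circleAverage_fun_add c5 c3, Real.circleAverage_fun_add c4 c2,
    Real.circleAverage_fun_smul, Real.circleAverage_fun_smul, avg_re_re hh h0 h1 hm,
    avg_re_re hh h0 h1 hn, avg_re hh h0 h1]
  simp only [smul_eq_mul]
  ring

/-- admissible choices of the middle term -/
def Adm (m n : ℕ) (u : ℝ) (α β : ℂ) : Prop := (n = 2 * m ∧ β = α ^ 2) ∨ u = 0

/-- the squared modulus of the polynomial on the circle -/
lemma normSq_poly {ρ : ℝ} (h0 : 0 < ρ) {m n : ℕ} {u v : ℝ} {α β : ℂ} (hα : ‖α‖ = 1)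
    (hβ : ‖β‖ = 1) (hadm : Adm m n u α β) {z : ℂ} (hz : z ∈ sphere (0 : ℂ) |ρ|) :
    ‖1 + u * α * z ^ m + v * β * z ^ n‖ ^ 2
      = 1 + (u * ρ ^ m) ^ 2 + (v * ρ ^ n) ^ 2
        + 2 * (u * ρ ^ m * (1 + v * ρ ^ n)) * (α * (z / ρ) ^ m).re
        + 2 * (v * ρ ^ n) * (β * (z / ρ) ^ n).re := by
  have hρ : (ρ : ℂ) ≠ 0 := by exact_mod_cast h0.ne'
  have hζ : ‖z / ρ‖ = 1 := by
    rw [norm_div, norm_z h0 hz, Complex.norm_real, Real.norm_eq_abs, abs_of_pos h0,
      div_self h0.ne']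
  set a := α * (z / ρ) ^ m with ha
  set b := β * (z / ρ) ^ n with hb
  have ha1 : ‖a‖ = 1 := by rw [ha, norm_mul, norm_pow, hζ, hα]; simp
  have hb1 : ‖b‖ = 1 := by rw [hb, norm_mul, norm_pow, hζ, hβ]; simp
  have e1 : (1 + u * α * z ^ m + v * β * z ^ n : ℂ)
      = 1 + ((u * ρ ^ m : ℝ) : ℂ) * a + ((v * ρ ^ n : ℝ) : ℂ) * b := by
    rw [ha, hb, div_pow, div_pow]
    push_cast
    field_simp
  rw [e1]
  set U := u * ρ ^ m with hU
  set V := v * ρ ^ n with hV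
  have ha2 : a.re ^ 2 + a.im ^ 2 = 1 := by
    have := Complex.sq_norm a
    rw [ha1, Complex.normSq_apply] at this
    linarith
  have hb2 : b.re ^ 2 + b.im ^ 2 = 1 := by
    have := Complex.sq_norm b
    rw [hb1, Complex.normSq_apply] at this
    linarith
  rw [Complex.sq_norm, Complex.normSq_apply]
  simp only [Complex.add_re, Complex.one_re, Complex.mul_re, Complex.ofReal_re, Complex.ofReal_im,
    zero_mul, sub_zero, Complex.add_im, Complex.one_im, Complex.mul_im, add_zero, zero_add]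
  rcases hadm with ⟨hnm, hβα⟩ | hu
  · have hba : b = a ^ 2 := by
      rw [hb, ha, hβα, hnm, mul_pow, ← pow_mul, mul_comm m 2]
    have hbre : b.re = a.re ^ 2 - a.im ^ 2 := by
      rw [hba, sq, Complex.mul_re]
      ring
    have hbim : b.im = 2 * a.re * a.im := by
      rw [hba, sq, Complex.mul_im]
      ring
    rw [hbre, hbim]
    have hai : a.im ^ 2 = 1 - a.re ^ 2 := by linarith
    linear_combination (U ^ 2 + 2 * U * V * a.re + V ^ 2 * (a.re ^ 2 + a.im ^ 2 + 1)) * ha2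
  · have hU0 : U = 0 := by rw [hU, hu]; simp
    rw [hU0]
    linear_combination V ^ 2 * hb2

/-- normalisation -/
noncomputable def NN (U V : ℝ) : ℝ := 1 / (1 + U ^ 2 + V ^ 2)

lemma NN_pos (U V : ℝ) : 0 < NN U V := by unfold NN; positivity

lemma normSq_poly' {ρ : ℝ} (h0 : 0 < ρ) {m n : ℕ} {u v : ℝ} {α β : ℂ} (hα : ‖α‖ = 1)
    (hβ : ‖β‖ = 1) (hadm : Adm m n u α β) {z : ℂ} (hz : z ∈ sphere (0 : ℂ) |ρ|) :
    NN (u * ρ ^ m) (v * ρ ^ n) * ‖1 + u * α * z ^ m + v * β * z ^ n‖ ^ 2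
      = TT ρ (NN (u * ρ ^ m) (v * ρ ^ n) * (u * ρ ^ m) * (1 + v * ρ ^ n))
        (NN (u * ρ ^ m) (v * ρ ^ n) * (v * ρ ^ n)) m n α β z := by
  rw [normSq_poly h0 hα hβ hadm hz, TT, NN]
  have : (1 + (u * ρ ^ m) ^ 2 + (v * ρ ^ n) ^ 2) ≠ 0 := by positivity
  field_simp

/-- Gibbs, pointwise -/
lemma gibbs_pt {T w : ℝ} (hT : 0 < T) (hw : 0 < w) : T * (Real.log w - Real.log T) ≤ w - T := by
  have h1 := Real.log_le_sub_one_of_pos (div_pos hw hT)
  rw [Real.log_div hw.ne' hT.ne'] at h1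
  calc T * (Real.log w - Real.log T) ≤ T * (w / T - 1) := by gcongr
    _ = w - T := by field_simp

lemma co_lin {h g : ℂ → ℂ} (hh : DifferentiableOn ℂ h (ball 0 1))
    (hg : DifferentiableOn ℂ g (ball 0 1)) (a b c : ℂ) {k : ℕ} (hk : 1 ≤ k) :
    co (fun z => a * h z + b * g z + c) k = a * co h k + b * co g k := by
  unfold co
  have h1 : ContDiffAt ℂ k h 0 := (analyticAt_zero hh).contDiffAt
  have h2 : ContDiffAt ℂ k g 0 := (analyticAt_zero hg).contDiffAt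
  have h3 : ContDiffAt ℂ k (fun z => a * h z) 0 := contDiffAt_const.mul h1
  have h4 : ContDiffAt ℂ k (fun z => b * g z) 0 := contDiffAt_const.mul h2
  rw [iteratedDeriv_fun_add (h3.add h4) contDiffAt_const, iteratedDeriv_fun_add h3 h4,
    iteratedDeriv_const_mul_field, iteratedDeriv_const_mul_field, iteratedDeriv_const]
  rw [if_neg (by omega)]
  ring

end Pool.Agent.H82.Hp
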