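import Mathlib
import Pool.Agent.H82.Hp.Gibbs

/-!
The main inequality (`MP_ff17e6_an`).
-/

set_option autoImplicit false

open Metric Set Filter Topology

namespace Pool.Agent.H82.Hp

/-- the three-term polynomial -/
noncomputable def PP (u v : ℝ) (m n : ℕ) (α β z : ℂ) : ℂ := 1 + u * α * z ^ m + v * β * z ^ n

lemma differentiable_PP (u v : ℝ) (m n : ℕ) (α β : ℂ) : Differentiable ℂ (PP u v m n α β) := by
  unfold PP
  fun_prop

lemma co_PP (u v : ℝ) (m n : ℕ) (α β : ℂ) {k : ℕ} (hk : 1 ≤ k) :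
    co (PP u v m n α β) k
      = (if k = m then (u : ℂ) * α else 0) + (if k = n then (v : ℂ) * β else 0) := by
  have e : PP u v m n α β = fun z => (1 : ℂ) + u * α * z ^ m + v * β * z ^ n := by
    ext z; rfl
  rw [e]
  unfold co
  have h1 : ContDiffAt ℂ k (fun z : ℂ => (u : ℂ) * α * z ^ m) 0 := by fun_prop
  have h2 : ContDiffAt ℂ k (fun z : ℂ => (v : ℂ) * β * z ^ n) 0 := by fun_prop
  rw [iteratedDeriv_fun_add (contDiffAt_const.add h1) h2,
    iteratedDeriv_fun_add contDiffAt_const h1, iteratedDeriv_const_mul_field,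
    iteratedDeriv_const_mul_field, iteratedDeriv_const, if_neg (by omega),
    iteratedDeriv_fun_pow_zero, iteratedDeriv_fun_pow_zero]
  have hk' : (k.factorial : ℂ) ≠ 0 := by exact_mod_cast Nat.factorial_ne_zero k
  rw [zero_add, add_div]
  congr 1
  · split_ifs with hkm
    · rw [← hkm]; field_simp
    · simp
  · split_ifs with hkn
    · rw [← hkn]; field_simp
    · simp

lemma co_PP_zero (u v : ℝ) {m n : ℕ} (hm : 1 ≤ m) (hn : 1 ≤ n) (α β : ℂ) :
    co (PP u v m n α β) 0 = 1 := by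
  rw [co_zero, PP, zero_pow (by omega), zero_pow (by omega)]
  ring

/-- converse relations: if the first coefficients of `f` vanish -/
lemma coeff_conv' {f h : ℂ → ℂ} (hh : DifferentiableOn ℂ h (ball 0 1))
    (hfh : ∀ z ∈ ball (0 : ℂ) 1, f z = Complex.exp (h z)) {n : ℕ} (hn : 1 ≤ n)
    (hf : ∀ k, 1 ≤ k → k < n → co f k = 0) :
    (∀ k, 1 ≤ k → k < n → co h k = 0) ∧ co f n = co f 0 * co h n := by
  have hf0 : co f 0 ≠ 0 := by
    rw [co_zero, hfh 0 (mem_ball_self one_pos)]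
    exact Complex.exp_ne_zero _
  have hA : ∀ k, 1 ≤ k → k < n → co h k = 0 := by
    intro k
    induction k using Nat.strong_induction_on with
    | _ k ih =>
      intro hk1 hk2
      obtain ⟨j, rfl⟩ := Nat.exists_eq_succ_of_ne_zero (by omega : k ≠ 0)
      have h1 := rec_exp hh hfh j
      rw [hf _ hk1 hk2, mul_zero, Finset.sum_range_succ] at h1
      have h2 : ∑ i ∈ Finset.range j, ((i : ℂ) + 1) * co h (i + 1) * co f (j - i) = 0 := by
        apply Finset.sum_eq_zero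
        intro i hi
        rw [Finset.mem_range] at hi
        rw [ih (i + 1) (by omega) (by omega) (by omega)]
        ring
      rw [h2, Nat.sub_self, zero_add] at h1
      have h3 : (j : ℂ) + 1 ≠ 0 := by exact_mod_cast Nat.succ_ne_zero j
      have h4 := h1.symm
      rcases mul_eq_zero.mp h4 with h5 | h5
      · rcases mul_eq_zero.mp h5 with h6 | h6
        · exact absurd h6 h3
        · exact h6
      · exact absurd h5 hf0
  exact ⟨hA, (coeff_conv hh hfh hn hA).2⟩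

/-- the logarithm of the three-term polynomial -/
structure LogData (u v : ℝ) (m n : ℕ) (α β : ℂ) (g : ℂ → ℂ) : Prop where
  diff : DifferentiableOn ℂ g (ball 0 1)
  exp : ∀ z ∈ ball (0 : ℂ) 1, PP u v m n α β z = Complex.exp (g z)
  re0 : (g 0).re = 0
  com : u = 0 ∨ co g m = u * α
  con : co g n = β * (v - u ^ 2 / 2)

lemma exists_logData {u v : ℝ} {m n : ℕ} {α β : ℂ} (hm : 1 ≤ m) (hn : 1 ≤ n)
    (hadm : Adm m n u α β) (h0 : ∀ z ∈ ball (0 : ℂ) 1, PP u v m n α β z ≠ 0) :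
    ∃ g, LogData u v m n α β g := by
  obtain ⟨g, hg, hexp⟩ := exists_log (differentiable_PP u v m n α β).differentiableOn h0
  have hre : (g 0).re = 0 := by
    have h1 := hexp 0 (mem_ball_self one_pos)
    have h2 := co_PP_zero u v hm hn α β
    rw [co_zero, h1] at h2
    have h3 := congrArg norm h2
    rw [Complex.norm_exp, norm_one, Real.exp_eq_one_iff] at h3
    exact h3
  have hc0 := co_PP_zero u v hm hn α β
  by_cases hu : u = 0
  · refine ⟨g, hg, hexp, hre, Or.inl hu, ?_⟩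
    have h1 := coeff_conv' hg hexp hn (by
      intro k hk1 hk2
      rw [co_PP _ _ _ _ _ _ hk1, if_neg (by omega : k ≠ n), hu]
      simp)
    have h2 := h1.2
    rw [hc0, one_mul, co_PP _ _ _ _ _ _ hn, hu] at h2
    rw [← h2, hu]
    simp
    ring
  · rcases hadm with ⟨hnm, hβα⟩ | h
    · have hf : ∀ k, 1 ≤ k → 2 * k < n → co (PP u v m n α β) k = 0 := by
        intro k hk1 hk2
        rw [co_PP _ _ _ _ _ _ hk1, if_neg (by omega : k ≠ n), if_neg (by omega : k ≠ m)]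
        simp
      have h1 := (coeff_rel hg hexp hf).2 m (by omega) (by omega)
      have h2 := coeff_even hg hexp hm hnm hf
      rw [hc0, one_mul, co_PP _ _ _ _ _ _ hm, if_pos rfl, if_neg (by omega : m ≠ n),
        add_zero] at h1
      rw [hc0, one_mul, co_PP _ _ _ _ _ _ hn, if_neg (by omega : n ≠ m), if_pos rfl,
        zero_add, ← h1] at h2
      refine ⟨g, hg, hexp, hre, Or.inr h1.symm, ?_⟩
      have h3 : co g n = v * β - (u * α) ^ 2 / 2 := by rw [h2]; ring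
      rw [h3, hβα]
      ring
    · exact absurd h hu

/-- the holomorphic comparison function -/
noncomputable def HH (p ν : ℝ) (h g : ℂ → ℂ) (z : ℂ) : ℂ := (p : ℂ) * h z + (-2 : ℂ) * g z + (-(ν : ℂ))

lemma HH_re (p ν : ℝ) (h g : ℂ → ℂ) (z : ℂ) :
    (HH p ν h g z).re = p * (h z).re - 2 * (g z).re - ν := by
  unfold HH
  simp [Complex.add_re, Complex.mul_re]
  ring

lemma HH_diff {h g : ℂ → ℂ} (hh : DifferentiableOn ℂ h (ball 0 1))
    (hg : DifferentiableOn ℂ g (ball 0 1)) (p ν : ℝ) :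
    DifferentiableOn ℂ (HH p ν h g) (ball 0 1) := by
  unfold HH
  exact ((hh.const_mul _).add (hg.const_mul _)).add_const _

lemma co_HH {h g : ℂ → ℂ} (hh : DifferentiableOn ℂ h (ball 0 1))
    (hg : DifferentiableOn ℂ g (ball 0 1)) (p ν : ℝ) {k : ℕ} (hk : 1 ≤ k) :
    co (HH p ν h g) k = p * co h k - 2 * co g k := by
  have := co_lin hh hg (p : ℂ) (-2 : ℂ) (-(ν : ℂ)) hk
  unfold HH
  rw [this]
  ring

/-- the value of the pairing -/
noncomputable def Phi (p u v : ℝ) (m n : ℕ) (α β : ℂ) (h g : ℂ → ℂ) (ρ : ℝ) : ℝ :=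
  p * (h 0).re - Real.log (NN (u * ρ ^ m) (v * ρ ^ n))
    + (NN (u * ρ ^ m) (v * ρ ^ n) * (u * ρ ^ m) * (1 + v * ρ ^ n)) * ρ ^ m
      * (p * ((starRingEnd ℂ) α * co h m).re - 2 * ((starRingEnd ℂ) α * co g m).re)
    + (NN (u * ρ ^ m) (v * ρ ^ n) * (v * ρ ^ n)) * ρ ^ n
      * (p * ((starRingEnd ℂ) β * co h n).re - 2 * ((starRingEnd ℂ) β * co g n).re)

lemma continuous_NN : Continuous (fun x : ℝ × ℝ => NN x.1 x.2) := by
  unfold NN
  apply Continuous.div continuous_const (by fun_prop)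
  intro x
  positivity

lemma continuous_Phi (p u v : ℝ) (m n : ℕ) (α β : ℂ) (h g : ℂ → ℂ) :
    Continuous (Phi p u v m n α β h g) := by
  have h1 : Continuous (fun ρ : ℝ => NN (u * ρ ^ m) (v * ρ ^ n)) :=
    continuous_NN.comp (by fun_prop : Continuous fun ρ : ℝ => ((u * ρ ^ m, v * ρ ^ n) : ℝ × ℝ))
  have h2 : Continuous (fun ρ : ℝ => Real.log (NN (u * ρ ^ m) (v * ρ ^ n))) :=
    h1.log (fun ρ => (NN_pos _ _).ne')
  unfold Phi
  fun_prop

/-- the deficiency -/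
noncomputable def dfc (p N : ℝ) (h g : ℂ → ℂ) (z : ℂ) : ℝ :=
  N * Real.exp (2 * (g z).re) * (Real.log N + 2 * (g z).re - p * (h z).re)
    - N * Real.exp (2 * (g z).re) + Real.exp (p * (h z).re)

lemma dfc_nonneg (p : ℝ) {N : ℝ} (hN : 0 < N) (h g : ℂ → ℂ) (z : ℂ) : 0 ≤ dfc p N h g z := by
  have hT : 0 < N * Real.exp (2 * (g z).re) := by positivity
  have h1 := gibbs_pt hT (Real.exp_pos (p * (h z).re))
  rw [Real.log_exp, Real.log_mul hN.ne' (Real.exp_pos _).ne', Real.log_exp] at h1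
  unfold dfc
  linarith

lemma TT_eq_exp {u v : ℝ} {m n : ℕ} {α β : ℂ} {g : ℂ → ℂ} (hL : LogData u v m n α β g)
    (hα : ‖α‖ = 1) (hβ : ‖β‖ = 1) (hadm : Adm m n u α β) {ρ : ℝ} (h0 : 0 < ρ) (h1 : ρ < 1)
    {z : ℂ} (hz : z ∈ sphere (0 : ℂ) |ρ|) :
    NN (u * ρ ^ m) (v * ρ ^ n) * Real.exp (2 * (g z).re)
      = TT ρ (NN (u * ρ ^ m) (v * ρ ^ n) * (u * ρ ^ m) * (1 + v * ρ ^ n))
        (NN (u * ρ ^ m) (v * ρ ^ n) * (v * ρ ^ n)) m n α β z := by
  rw [← normSq_poly' h0 hα hβ hadm hz]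
  have h2 := hL.exp z (mem_ball_of h0 h1 hz)
  rw [PP] at h2
  rw [h2, Complex.norm_exp, ← Real.exp_nat_mul]
  norm_num

lemma avg_TT_one {ρ : ℝ} (h0 : 0 < ρ) (h1 : ρ < 1) {m n : ℕ} (hm : 1 ≤ m) (hn : 1 ≤ n)
    (s τ : ℝ) (α β : ℂ) : Real.circleAverage (TT ρ s τ m n α β) 0 ρ = 1 := by
  have h2 : DifferentiableOn ℂ (fun _ : ℂ => (1 : ℂ)) (ball 0 1) := differentiableOn_const 1
  have h3 := avg_TT h2 h0 h1 hm hn s τ α β
  have h4 : ∀ k, 1 ≤ k → co (fun _ : ℂ => (1 : ℂ)) k = 0 := by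
    intro k hk
    unfold co
    rw [iteratedDeriv_const, if_neg (by omega)]
    simp
  rw [h4 m hm, h4 n hn] at h3
  simpa using h3

/-- average of the deficiency -/
lemma avg_dfc {p u v : ℝ} {m n : ℕ} {α β : ℂ} {h g : ℂ → ℂ} (hm : 1 ≤ m) (hn : 1 ≤ n)
    (hh : DifferentiableOn ℂ h (ball 0 1)) (hL : LogData u v m n α β g) (hα : ‖α‖ = 1)
    (hβ : ‖β‖ = 1) (hadm : Adm m n u α β) {ρ : ℝ} (h0 : 0 < ρ) (h1 : ρ < 1) :
    Real.circleAverage (dfc p (NN (u * ρ ^ m) (v * ρ ^ n)) h g) 0 ρ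
      = Real.circleAverage (fun z => Real.exp (p * (h z).re)) 0 ρ - 1
        - Phi p u v m n α β h g ρ := by
  set N := NN (u * ρ ^ m) (v * ρ ^ n) with hN
  have hNpos : 0 < N := NN_pos _ _
  set s := N * (u * ρ ^ m) * (1 + v * ρ ^ n) with hs
  set τ := N * (v * ρ ^ n) with hτ
  have hre : ContinuousOn (fun z => (h z).re) (sphere 0 |ρ|) :=
    Complex.continuous_re.comp_continuousOn (circleIntegrable_of hh h0 h1)
  have hH := HH_diff hh hL.diff p (Real.log N)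
  have hHre : ContinuousOn (fun z => (HH p (Real.log N) h g z).re) (sphere 0 |ρ|) :=
    Complex.continuous_re.comp_continuousOn (circleIntegrable_of hH h0 h1)
  have e1 : EqOn (dfc p N h g) (fun z => Real.exp (p * (h z).re) - (TT ρ s τ m n α β z
      + TT ρ s τ m n α β z * (HH p (Real.log N) h g z).re)) (sphere 0 |ρ|) := by
    intro z hz
    have h2 := TT_eq_exp hL hα hβ hadm h0 h1 hz
    rw [← hN, ← hs, ← hτ] at h2
    simp only [dfc]
    rw [HH_re, h2]
    ring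
  have c1 : CircleIntegrable (fun z => Real.exp (p * (h z).re)) 0 ρ := by
    apply ContinuousOn.circleIntegrable'
    exact Real.continuous_exp.comp_continuousOn (continuousOn_const.mul hre)
  have c2 : CircleIntegrable (TT ρ s τ m n α β) 0 ρ :=
    ContinuousOn.circleIntegrable' (continuousOn_TT ρ s τ m n α β).continuousOn
  have c3 : CircleIntegrable (fun z => TT ρ s τ m n α β z * (HH p (Real.log N) h g z).re) 0 ρ :=
    ContinuousOn.circleIntegrable' ((continuousOn_TT ρ s τ m n α β).continuousOn.mul hHre)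
  have c4 : CircleIntegrable (fun z => TT ρ s τ m n α β z
      + TT ρ s τ m n α β z * (HH p (Real.log N) h g z).re) 0 ρ := c2.add c3
  rw [Real.circleAverage_congr_sphere e1, Real.circleAverage_fun_sub c1 c4,
    Real.circleAverage_fun_add c2 c3, avg_TT_one h0 h1 hm hn, avg_TT hH h0 h1 hm hn,
    co_HH hh hL.diff _ _ hm, co_HH hh hL.diff _ _ hn, HH_re, hL.re0]
  unfold Phi
  rw [← hN, ← hs, ← hτ]
  have e2 : ∀ a x y : ℂ, (a * (p * x - 2 * y)).re = p * (a * x).re - 2 * (a * y).re := by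
    intro a x y
    rw [show a * (p * x - 2 * y) = (p : ℂ) * (a * x) - (2 : ℂ) * (a * y) by ring,
      Complex.sub_re, Complex.re_ofReal_mul]
    congr 1
    have : (2 : ℂ) * (a * y) = ((2 : ℝ) : ℂ) * (a * y) := by push_cast; ring
    rw [this, Complex.re_ofReal_mul]
  rw [e2, e2]
  ring

lemma Phi_le {p u v : ℝ} {m n : ℕ} {α β : ℂ} {h g : ℂ → ℂ} (hm : 1 ≤ m) (hn : 1 ≤ n)
    (hh : DifferentiableOn ℂ h (ball 0 1)) (hL : LogData u v m n α β g) (hα : ‖α‖ = 1)
    (hβ : ‖β‖ = 1) (hadm : Adm m n u α β)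
    (hmean : ∀ ρ : ℝ, 0 < ρ → ρ < 1 →
      Real.circleAverage (fun z => Real.exp (p * (h z).re)) 0 ρ ≤ 1)
    {ρ : ℝ} (h0 : 0 < ρ) (h1 : ρ < 1) :
    Phi p u v m n α β h g ρ ≤ 0 := by
  have h2 := avg_dfc (p := p) hm hn hh hL hα hβ hadm h0 h1
  have h3 : 0 ≤ Real.circleAverage (dfc p (NN (u * ρ ^ m) (v * ρ ^ n)) h g) 0 ρ := by
    unfold Real.circleAverage
    rw [smul_eq_mul]
    apply mul_nonneg (by positivity)
    apply intervalIntegral.integral_nonneg (by positivity)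
    intro θ _
    exact dfc_nonneg p (NN_pos _ _) h g _
  have h4 := hmean ρ h0 h1
  linarith

/-- the main inequality -/
lemma Phi_one_le {p u v : ℝ} {m n : ℕ} {α β : ℂ} {h g : ℂ → ℂ} (hm : 1 ≤ m) (hn : 1 ≤ n)
    (hh : DifferentiableOn ℂ h (ball 0 1)) (hL : LogData u v m n α β g) (hα : ‖α‖ = 1)
    (hβ : ‖β‖ = 1) (hadm : Adm m n u α β)
    (hmean : ∀ ρ : ℝ, 0 < ρ → ρ < 1 →
      Real.circleAverage (fun z => Real.exp (p * (h z).re)) 0 ρ ≤ 1) :
    Phi p u v m n α β h g 1 ≤ 0 := by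
  have h1 : Tendsto (Phi p u v m n α β h g) (𝓝[<] 1) (𝓝 (Phi p u v m n α β h g 1)) :=
    ((continuous_Phi p u v m n α β h g).tendsto 1).mono_left nhdsWithin_le_nhds
  apply le_of_tendsto h1
  have h2 : Ioo (0 : ℝ) 1 ∈ 𝓝[<] (1 : ℝ) := Ioo_mem_nhdsLT one_pos
  filter_upwards [h2] with ρ hρ
  exact Phi_le hm hn hh hL hα hβ hadm hmean hρ.1 hρ.2

/-- the main inequality, explicit -/
theorem main_ineq {p u v : ℝ} {m n : ℕ} {α β : ℂ} {h : ℂ → ℂ} (hm : 1 ≤ m) (hn : 1 ≤ n)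
    (hh : DifferentiableOn ℂ h (ball 0 1)) (hα : ‖α‖ = 1)
    (hβ : ‖β‖ = 1) (hadm : Adm m n u α β)
    (h0 : ∀ z ∈ ball (0 : ℂ) 1, PP u v m n α β z ≠ 0)
    (hmean : ∀ ρ : ℝ, 0 < ρ → ρ < 1 →
      Real.circleAverage (fun z => Real.exp (p * (h z).re)) 0 ρ ≤ 1) :
    p * ((h 0).re + NN u v * u * (1 + v) * ((starRingEnd ℂ) α * co h m).re
      + NN u v * v * ((starRingEnd ℂ) β * co h n).re)
      ≤ Real.log (NN u v) + 2 * (NN u v * u * (1 + v)) * u
        + 2 * (NN u v * v) * (v - u ^ 2 / 2) := by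
  obtain ⟨g, hL⟩ := exists_logData hm hn hadm h0
  have h1 := Phi_one_le hm hn hh hL hα hβ hadm hmean
  unfold Phi at h1
  simp only [one_pow, mul_one] at h1
  have h2 : ((starRingEnd ℂ) β * co g n).re = v - u ^ 2 / 2 := by
    rw [hL.con, ← mul_assoc, mul_comm ((starRingEnd ℂ) β) β, Complex.mul_conj,
      Complex.normSq_eq_norm_sq, hβ]
    have : ((1 ^ 2 : ℝ) : ℂ) * ((v : ℂ) - (u : ℂ) ^ 2 / 2) = ((v - u ^ 2 / 2 : ℝ) : ℂ) := by
      push_cast; ring
    rw [this, Complex.ofReal_re]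
  have h3 : u * ((starRingEnd ℂ) α * co g m).re = u * u := by
    rcases hL.com with hu | hc
    · rw [hu]; ring
    · rw [hc, show (starRingEnd ℂ) α * (u * α) = (u : ℂ) * (α * (starRingEnd ℂ) α) by ring,
        Complex.mul_conj, Complex.normSq_eq_norm_sq, hα]
      have : (u : ℂ) * ((1 ^ 2 : ℝ) : ℂ) = (u : ℂ) := by push_cast; ring
      rw [this, Complex.ofReal_re]
  rw [h2] at h1
  have h4 : NN u v * u * (1 + v) * (p * ((starRingEnd ℂ) α * co h m).re
      - 2 * ((starRingEnd ℂ) α * co g m).re)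
      = NN u v * u * (1 + v) * (p * ((starRingEnd ℂ) α * co h m).re)
        - 2 * (NN u v * (1 + v)) * (u * ((starRingEnd ℂ) α * co g m).re) := by ring
  rw [h4, h3] at h1
  nlinarith [h1]

end Pool.Agent.H82.Hp
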