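import Mathlib
import Pool.Agent.H82.Hp.MI

/-!
The scalar inequalities and the choice of the comparison polynomial (`MP_ff17e6_an`).
-/

set_option autoImplicit false

open Metric Set Filter Topology

namespace Pool.Agent.H82.Hp

lemma log_bound {y : ℝ} (hy : 0 < y) (hy3 : y ≤ 3) : Real.log (1 + y) < 2 * y / (1 + y) := by
  set t := Real.sqrt (1 + y) with htdef
  have ht2 : t ^ 2 = 1 + y := Real.sq_sqrt (by linarith)
  have ht0 : 0 ≤ t := Real.sqrt_nonneg _
  have ht : 1 < t := by nlinarith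
  have ht' : t ≤ 2 := by nlinarith
  have htpos : 0 < t := by linarith
  have h1 : Real.log t < Real.sinh (Real.log t) := Real.self_lt_sinh_iff.mpr (Real.log_pos ht)
  rw [Real.sinh_log htpos] at h1
  have h2 : Real.log (1 + y) = 2 * Real.log t := by
    rw [← ht2, Real.log_pow]; norm_num
  have h3 : t - t⁻¹ ≤ 2 * y / (1 + y) := by
    rw [← ht2, show y = t ^ 2 - 1 by linarith]
    rw [show t - t⁻¹ = (t * (t ^ 2 - 1)) / t ^ 2 by field_simp]
    apply div_le_div_of_nonneg_right _ (by positivity)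
    nlinarith
  rw [h2]
  linarith

/-- the function `F₁` -/
noncomputable def phi (r : ℝ) : ℝ :=
  -Real.log r - 1 + (-1 + 4 * r ^ 2 + 8 * r ^ 3 + r ^ 4) / (4 * r + 4 * r ^ 2 + 4 * r ^ 3)

lemma hasDerivAt_phi {r : ℝ} (hr : 0 < r) :
    HasDerivAt phi ((1 - r) ^ 4 * (1 + r) ^ 2 / (4 * r ^ 2 * (1 + r + r ^ 2) ^ 2)) r := by
  have h1 : HasDerivAt (fun r : ℝ => -Real.log r - 1) (-(r⁻¹)) r :=
    ((Real.hasDerivAt_log hr.ne').neg).sub_const 1
  have h2 : HasDerivAt (fun r : ℝ => -1 + 4 * r ^ 2 + 8 * r ^ 3 + r ^ 4)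
      (8 * r + 24 * r ^ 2 + 4 * r ^ 3) r := by
    have a1 := (hasDerivAt_pow 2 r).const_mul 4
    have a2 := (hasDerivAt_pow 3 r).const_mul 8
    have a3 := hasDerivAt_pow 4 r
    have a4 : HasDerivAt (fun r : ℝ => -1 + 4 * r ^ 2 + 8 * r ^ 3 + r ^ 4) _ r :=
      ((a1.const_add (-1)).add a2).add a3
    exact a4.congr_deriv (by push_cast; ring)
  have h3 : HasDerivAt (fun r : ℝ => 4 * r + 4 * r ^ 2 + 4 * r ^ 3)
      (4 + 8 * r + 12 * r ^ 2) r := by
    have a1 := (hasDerivAt_pow 2 r).const_mul 4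
    have a2 := (hasDerivAt_pow 3 r).const_mul 4
    have a3 := (hasDerivAt_id r).const_mul 4
    have a4 : HasDerivAt (fun r : ℝ => 4 * r + 4 * r ^ 2 + 4 * r ^ 3) _ r := (a3.add a1).add a2
    exact a4.congr_deriv (by push_cast; ring)
  have hden : 4 * r + 4 * r ^ 2 + 4 * r ^ 3 ≠ 0 := by positivity
  have h4 : HasDerivAt phi _ r := h1.add (h2.div h3 hden)
  refine h4.congr_deriv ?_
  have : 1 + r + r ^ 2 ≠ 0 := by positivity
  rw [show 4 * r + 4 * r ^ 2 + 4 * r ^ 3 = 4 * r * (1 + r + r ^ 2) by ring]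
  field_simp
  ring

lemma phi_nonpos {r : ℝ} (h0 : 0 < r) (h1 : r ≤ 1) : phi r ≤ 0 := by
  have hd : ∀ x ∈ Icc r 1, HasDerivAt phi
      ((1 - x) ^ 4 * (1 + x) ^ 2 / (4 * x ^ 2 * (1 + x + x ^ 2) ^ 2)) x :=
    fun x hx => hasDerivAt_phi (lt_of_lt_of_le h0 hx.1)
  have hm : MonotoneOn phi (Icc r 1) := by
    apply monotoneOn_of_deriv_nonneg (convex_Icc r 1)
    · exact fun x hx => (hd x hx).continuousAt.continuousWithinAt
    · exact fun x hx => (hd x (interior_subset hx)).differentiableAt.differentiableWithinAt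
    · intro x hx
      rw [(hd x (interior_subset hx)).deriv]
      have h2 := interior_subset hx
      have h3 : 0 < x := lt_of_lt_of_le h0 h2.1
      positivity
  have h2 := hm (left_mem_Icc.mpr h1) (right_mem_Icc.mpr h1) h1
  have h3 : phi 1 = 0 := by
    unfold phi
    norm_num
  linarith

lemma quad_ne {X : ℝ} (h0 : 0 ≤ X) (h2 : X ≤ 2) {w : ℂ} (hw : ‖w‖ < 1) :
    1 + (X : ℂ) * w + ((1 : ℝ) : ℂ) * w ^ 2 ≠ 0 := by
  intro h
  have hn : w.re ^ 2 + w.im ^ 2 < 1 := by
    have h3 := Complex.sq_norm w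
    rw [Complex.normSq_apply] at h3
    have h4 : ‖w‖ ^ 2 < 1 := by
      have := norm_nonneg w
      nlinarith
    nlinarith
  have hre := congrArg Complex.re h
  have him := congrArg Complex.im h
  simp [sq, Complex.mul_re, Complex.mul_im] at hre him
  have h5 : w.im * (X + 2 * w.re) = 0 := by linarith
  rcases mul_eq_zero.mp h5 with h6 | h6
  · rw [h6] at hre hn
    have h7 : |w.re| < 1 := by
      rw [abs_lt]
      constructor <;> nlinarith
    have h8 := abs_lt.mp h7
    nlinarith [sq_nonneg (1 + w.re), sq_nonneg (1 - w.re), mul_nonneg h0 (by linarith [h8.1] : (0:ℝ) ≤ 1 + w.re)]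
  · have h7 : X = -2 * w.re := by linarith
    rw [h7] at hre
    nlinarith

/-- the choice of parameters -/
lemma exists_uv {X : ℝ} (hX : 0 ≤ X) : ∃ u v : ℝ, 0 ≤ u ∧ 0 < v ∧
    (∀ w : ℂ, ‖w‖ < 1 → 1 + (u : ℂ) * w + (v : ℂ) * w ^ 2 ≠ 0) ∧
    (0 < X → -(2 * (NN u v * u * (1 + v)) * X) + 2 * (NN u v * v) * X ^ 2
      - Real.log (2 * (NN u v * v)) < 0) ∧
    (-(2 * (NN u v * u * (1 + v)) * X) + 2 * (NN u v * v) * X ^ 2
      - Real.log (2 * (NN u v * v)) ≤ 0) ∧
    (Real.log (NN u v) + 2 * (NN u v * u * (1 + v)) * u + 2 * (NN u v * v) * (v - u ^ 2 / 2)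
      - 2 * (NN u v * u * (1 + v)) * X + 2 * (NN u v * v) * X ^ 2 - 1
      - Real.log (NN u v * v) ≤ 0) := by
  by_cases h2 : X ≤ 2
  · refine ⟨X, 1, hX, one_pos, fun w hw => quad_ne hX h2 hw, ?_⟩
    have hN : NN X 1 = 1 / (2 + X ^ 2) := by
      unfold NN
      congr 1
      ring
    have hD : (2 + X ^ 2) ≠ 0 := by positivity
    have e1 : -(2 * (NN X 1 * X * (1 + 1)) * X) + 2 * (NN X 1 * 1) * X ^ 2
        = -(2 * (X ^ 2 / 2) / (1 + X ^ 2 / 2)) := by
      rw [hN]
      have : (1 + X ^ 2 / 2) ≠ 0 := by positivity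
      field_simp
      ring
    have e2 : Real.log (2 * (NN X 1 * 1)) = -Real.log (1 + X ^ 2 / 2) := by
      rw [hN, ← Real.log_inv]
      congr 1
      have : (1 + X ^ 2 / 2) ≠ 0 := by positivity
      field_simp
    rw [e1, e2]
    have h3 : 0 < X → Real.log (1 + X ^ 2 / 2) < 2 * (X ^ 2 / 2) / (1 + X ^ 2 / 2) := by
      intro hXpos
      apply log_bound (by positivity)
      nlinarith
    refine ⟨?_, ?_, ?_⟩
    · intro hXpos
      have := h3 hXpos
      linarith
    · rcases hX.eq_or_lt with h | h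
      · rw [← h]
        norm_num
      · have := h3 h
        linarith
    · rw [mul_one]
      have e3 : 2 * (NN X 1 * X * (1 + 1)) * X + 2 * NN X 1 * (1 - X ^ 2 / 2)
        - 2 * (NN X 1 * X * (1 + 1)) * X + 2 * NN X 1 * X ^ 2 - 1 = 0 := by
        rw [hN]
        field_simp
        ring
      linarith
  · push Not at h2
    set q := Real.sqrt ((X - 1) ^ 2 - 1) with hq
    have hq2 : q ^ 2 = (X - 1) ^ 2 - 1 := Real.sq_sqrt (by nlinarith)
    have hq0 : 0 ≤ q := Real.sqrt_nonneg _
    have hqpos : 0 < q := by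
      rcases hq0.eq_or_lt with h | h
      · rw [← h] at hq2
        nlinarith
      · exact h
    have hqlt : q < X - 1 := by nlinarith
    set r := X - 1 - q with hr
    have hr0 : 0 < r := by linarith
    have hrr : r * (X - 1 + q) = 1 := by rw [hr]; nlinarith
    have hr1 : r < 1 := by nlinarith
    have hrX : 2 * r * X = (1 + r) ^ 2 := by
      have : r ^ 2 = 2 * (X - 1) * r - 1 := by
        rw [hr]; nlinarith
      nlinarith
    have hXr : X = (1 + r) ^ 2 / (2 * r) := by
      field_simp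
      linarith
    have hXpos : 0 < X := by linarith
    refine ⟨1 + r, r, by linarith, hr0, ?_, ?_⟩
    · intro w hw h
      have h3 : (1 + w) * (1 + r * w) = 0 := by
        rw [← h]
        push_cast
        ring
      rcases mul_eq_zero.mp h3 with h4 | h4
      · have h5 : w = -1 := by linear_combination h4
        rw [h5, norm_neg, norm_one] at hw
        exact lt_irrefl _ hw
      · have h5 : (r : ℂ) * w = -1 := by linear_combination h4
        have h6 := congrArg norm h5
        rw [norm_mul, norm_neg, norm_one, Complex.norm_real, Real.norm_eq_abs,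
          abs_of_pos hr0] at h6
        nlinarith [norm_nonneg w]
    · have hN : NN (1 + r) r = 1 / (2 * (1 + r + r ^ 2)) := by
        unfold NN
        congr 1
        ring
      have hD : (1 + r + r ^ 2) ≠ 0 := by positivity
      have hDpos : 0 < 1 + r + r ^ 2 := by positivity
      set D := (1 + r + r ^ 2) / r with hDdef
      have hDp : 0 < D := by positivity
      have e1 : -(2 * (NN (1 + r) r * (1 + r) * (1 + r)) * X) + 2 * (NN (1 + r) r * r) * X ^ 2
          = -((D + 1) ^ 2 / (4 * D)) := by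
        rw [hN, hXr, hDdef]
        field_simp
        ring
      have e2 : Real.log (2 * (NN (1 + r) r * r)) = -Real.log D := by
        rw [hN, ← Real.log_inv, hDdef]
        congr 1
        field_simp
      rw [e1, e2]
      have h3 : Real.log D ≤ D / 4 + 2 * Real.log 2 - 1 := by
        have h4 := Real.log_le_sub_one_of_pos (by positivity : 0 < D / 4)
        rw [Real.log_div hDp.ne' (by norm_num)] at h4
        have h5 : Real.log 4 = 2 * Real.log 2 := by
          rw [show (4 : ℝ) = 2 ^ 2 by norm_num, Real.log_pow]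
          norm_num
        linarith
      have h6 : (D + 1) ^ 2 / (4 * D) = D / 4 + 1 / 2 + 1 / (4 * D) := by
        field_simp
        ring
      have h7 : 0 < 1 / (4 * D) := by positivity
      have h8 := Real.log_two_lt_d9
      have h9 : -((D + 1) ^ 2 / (4 * D)) - -Real.log D < 0 := by
        rw [h6]
        linarith
      refine ⟨fun _ => h9, h9.le, ?_⟩
      have h10 := phi_nonpos hr0 hr1.le
      unfold phi at h10
      have e3 : Real.log (NN (1 + r) r) - Real.log (NN (1 + r) r * r) = -Real.log r := by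
        rw [Real.log_mul (NN_pos _ _).ne' hr0.ne']
        ring
      have e4 : 2 * (NN (1 + r) r * (1 + r) * (1 + r)) * (1 + r)
          + 2 * (NN (1 + r) r * r) * (r - (1 + r) ^ 2 / 2)
          - 2 * (NN (1 + r) r * (1 + r) * (1 + r)) * X + 2 * (NN (1 + r) r * r) * X ^ 2
          = (-1 + 4 * r ^ 2 + 8 * r ^ 3 + r ^ 4) / (4 * r + 4 * r ^ 2 + 4 * r ^ 3) := by
        have hd2 : 4 * r + 4 * r ^ 2 + 4 * r ^ 3 = 4 * r * (1 + r + r ^ 2) := by ring
        rw [hN, hXr, hd2]
        field_simp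
        ring
      linarith

end Pool.Agent.H82.Hp
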