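import Mathlib
import Pool.Agent.H82.Hp.Scalar

/-!
The coefficient bound (`MP_ff17e6_an`).
-/

set_option autoImplicit false

open Metric Set Filter Topology

namespace Pool.Agent.H82.Hp

/-- `log R ≤ τ R - 1 - log τ` -/
lemma log_tangent {R τ : ℝ} (hR : 0 < R) (hτ : 0 < τ) : Real.log R ≤ τ * R - 1 - Real.log τ := by
  have h1 := Real.log_le_sub_one_of_pos (mul_pos hτ hR)
  rw [Real.log_mul hτ.ne' hR.ne'] at h1
  linarith

/-- non-vanishing of the comparison polynomial -/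
lemma PP_ne_of {u v : ℝ} {m n : ℕ} {α β : ℂ} (hm : 1 ≤ m) (hnm : n = 2 * m) (hβα : β = α ^ 2)
    (hα : ‖α‖ = 1)
    (h : ∀ w : ℂ, ‖w‖ < 1 → 1 + (u : ℂ) * w + (v : ℂ) * w ^ 2 ≠ 0) :
    ∀ z ∈ ball (0 : ℂ) 1, PP u v m n α β z ≠ 0 := by
  intro z hz
  rw [mem_ball_zero_iff] at hz
  have h1 : ‖α * z ^ m‖ < 1 := by
    rw [norm_mul, hα, one_mul, norm_pow]
    exact pow_lt_one₀ (norm_nonneg z) hz (by omega)
  have h2 := h _ h1
  unfold PP
  rw [hnm, hβα]
  intro h3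
  apply h2
  rw [← h3]
  ring

lemma PP_ne_zero_one {m n : ℕ} {α β : ℂ} (hn : 1 ≤ n) (hβ : ‖β‖ = 1) :
    ∀ z ∈ ball (0 : ℂ) 1, PP 0 1 m n α β z ≠ 0 := by
  intro z hz
  rw [mem_ball_zero_iff] at hz
  have h1 : ‖β * z ^ n‖ < 1 := by
    rw [norm_mul, hβ, one_mul, norm_pow]
    exact pow_lt_one₀ (norm_nonneg z) hz (by omega)
  unfold PP
  intro h3
  have h4 : β * z ^ n = -1 := by
    push_cast at h3
    linear_combination h3
  rw [h4, norm_neg, norm_one] at h1
  exact lt_irrefl _ h1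

lemma NN_zero_one : NN 0 1 = 1 / 2 := by unfold NN; norm_num

/-- the inequality for `u = 0`, `v = 1` -/
lemma ineq_zero_one {p : ℝ} {n : ℕ} {β : ℂ} {h : ℂ → ℂ} (hn : 1 ≤ n)
    (hh : DifferentiableOn ℂ h (ball 0 1)) (hβ : ‖β‖ = 1)
    (hmean : ∀ ρ : ℝ, 0 < ρ → ρ < 1 →
      Real.circleAverage (fun z => Real.exp (p * (h z).re)) 0 ρ ≤ 1) :
    p * ((h 0).re + ((starRingEnd ℂ) β * co h n).re / 2) ≤ 1 - Real.log 2 := by
  have h1 := main_ineq (p := p) (u := 0) (v := 1) (m := n) (n := n) (α := 1) (β := β) hn hn hh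
    (by simp) hβ (Or.inr rfl) (PP_ne_zero_one hn hβ) hmean
  rw [NN_zero_one] at h1
  have h2 : Real.log (1 / 2 : ℝ) = -Real.log 2 := by
    rw [one_div, Real.log_inv]
  rw [h2] at h1
  generalize ((starRingEnd ℂ) β * co h n).re = q at h1 ⊢
  generalize ((starRingEnd ℂ) 1 * co h n).re = q' at h1
  linarith

/-- the core bound, even case -/
lemma bound_even {p : ℝ} (hp : 1 < p) {m n : ℕ} {α β : ℂ} {h : ℂ → ℂ} (hm : 1 ≤ m)
    (hnm : n = 2 * m) (hβα : β = α ^ 2)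
    (hh : DifferentiableOn ℂ h (ball 0 1)) (hα : ‖α‖ = 1)
    (hmean : ∀ ρ : ℝ, 0 < ρ → ρ < 1 →
      Real.circleAverage (fun z => Real.exp (p * (h z).re)) 0 ρ ≤ 1)
    {R : ℝ} (hR : 0 < R) (hRc : co h n + (co h m) ^ 2 / 2 = R * β)
    (hX : 0 ≤ ((starRingEnd ℂ) α * co h m).re) :
    (h 0).re + Real.log R ≤ (1 - 1 / p) * (Real.log 2 - 1) ∧
    ((h 0).re + Real.log R = (1 - 1 / p) * (Real.log 2 - 1) → co h m = 0 ∧ R = 2) := by
  have hβ : ‖β‖ = 1 := by rw [hβα, norm_pow, hα, one_pow]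
  have hp0 : 0 < p := by linarith
  have hn : 1 ≤ n := by omega
  set y : ℂ := (starRingEnd ℂ) α * co h m with hy
  set X : ℝ := y.re / 2 with hXdef
  have hX0 : 0 ≤ X := by rw [hXdef]; linarith
  have hαα : α * (starRingEnd ℂ) α = 1 := by
    rw [Complex.mul_conj, Complex.normSq_eq_norm_sq, hα]; norm_num
  -- the real part of `conj β * c_n`
  have hcn : ((starRingEnd ℂ) β * co h n).re = R - (y.re ^ 2 - y.im ^ 2) / 2 := by
    have e1 : (starRingEnd ℂ) β * co h n = (R : ℂ) - y ^ 2 / 2 := by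
      have e2 : co h n = R * β - (co h m) ^ 2 / 2 := by rw [← hRc]; ring
      have e3 : (starRingEnd ℂ) β * β = 1 := by
        rw [hβα, map_pow, ← mul_pow, mul_comm, hαα, one_pow]
      rw [e2, hy, hβα, map_pow]
      rw [hβα, map_pow] at e3
      linear_combination (R : ℂ) * e3
    rw [e1, Complex.sub_re, Complex.ofReal_re]
    congr 1
    have : y ^ 2 / 2 = ((1 / 2 : ℝ) : ℂ) * (y * y) := by push_cast; ring
    rw [this, Complex.re_ofReal_mul, Complex.mul_re]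
    ring
  obtain ⟨u, v, hu, hv, hne, hAs, hA, hB⟩ := exists_uv hX0
  have h1 := main_ineq (p := p) (u := u) (v := v) hm hn hh hα hβ (Or.inl ⟨hnm, hβα⟩)
    (PP_ne_of hm hnm hβα hα hne) hmean
  have hNpos := NN_pos u v
  set s := NN u v * u * (1 + v) with hs
  set τ := NN u v * v with hτ
  have hτpos : 0 < τ := mul_pos hNpos hv
  rw [hcn] at h1
  have hyre : y.re = 2 * X := by rw [hXdef]; ring
  set E := Real.log (NN u v) + 2 * s * u + 2 * τ * (v - u ^ 2 / 2) with hE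
  have h2 : (h 0).re ≤ E / p - 2 * s * X - τ * R + 2 * τ * X ^ 2 := by
    have h3 : (h 0).re + s * y.re + τ * (R - (y.re ^ 2 - y.im ^ 2) / 2) ≤ E / p := by
      rw [le_div_iff₀ hp0]
      linarith
    rw [hyre] at h3
    have h4 : 0 ≤ τ * (y.im ^ 2) := by positivity
    have h5 : τ * (R - ((2 * X) ^ 2 - y.im ^ 2) / 2)
        = τ * R - 2 * τ * X ^ 2 + (τ * (y.im ^ 2)) / 2 := by ring
    rw [h5] at h3
    linarith
  have h3 := log_tangent hR hτpos
  have h4 : Real.log (2 * τ) = Real.log 2 + Real.log τ :=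
    Real.log_mul (by norm_num) hτpos.ne'
  have hθ1 : 1 / p < 1 := by rw [div_lt_one hp0]; exact hp
  have hθ0 : 0 < 1 / p := by positivity
  have hEp : E / p = 1 / p * E := by ring
  have hB' : E - 2 * s * X + 2 * τ * X ^ 2 - 1 - Real.log τ ≤ 0 := hB
  have hA' : -(2 * s * X) + 2 * τ * X ^ 2 - Real.log (2 * τ) ≤ 0 := hA
  have key : (h 0).re + Real.log R - (1 - 1 / p) * (Real.log 2 - 1)
      ≤ 1 / p * (E - 2 * s * X + 2 * τ * X ^ 2 - 1 - Real.log τ)
        + (1 - 1 / p) * (-(2 * s * X) + 2 * τ * X ^ 2 - Real.log (2 * τ)) := by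
    rw [h4]
    rw [hEp] at h2
    linarith
  have hle : (h 0).re + Real.log R ≤ (1 - 1 / p) * (Real.log 2 - 1) := by
    have a1 : 1 / p * (E - 2 * s * X + 2 * τ * X ^ 2 - 1 - Real.log τ) ≤ 0 :=
      mul_nonpos_of_nonneg_of_nonpos hθ0.le hB'
    have a2 : (1 - 1 / p) * (-(2 * s * X) + 2 * τ * X ^ 2 - Real.log (2 * τ)) ≤ 0 :=
      mul_nonpos_of_nonneg_of_nonpos (by linarith) hA'
    linarith
  refine ⟨hle, fun heq => ?_⟩
  have hXz : X = 0 := by
    by_contra hXne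
    have hXpos : 0 < X := lt_of_le_of_ne hX0 (Ne.symm hXne)
    have hA'' : -(2 * s * X) + 2 * τ * X ^ 2 - Real.log (2 * τ) < 0 := hAs hXpos
    have a1 : 1 / p * (E - 2 * s * X + 2 * τ * X ^ 2 - 1 - Real.log τ) ≤ 0 :=
      mul_nonpos_of_nonneg_of_nonpos hθ0.le hB'
    have a2 : (1 - 1 / p) * (-(2 * s * X) + 2 * τ * X ^ 2 - Real.log (2 * τ)) < 0 :=
      mul_neg_of_pos_of_neg (by linarith) hA''
    linarith
  have hyre0 : y.re = 0 := by rw [hyre, hXz]; ring
  have h5 := ineq_zero_one hn hh hβ hmean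
  rw [hcn, hyre0] at h5
  have h6 : (h 0).re + R / 2 + y.im ^ 2 / 4 ≤ (1 - Real.log 2) / p := by
    rw [le_div_iff₀ hp0]
    linarith
  have h7 : (1 - Real.log 2) / p = 1 / p * (1 - Real.log 2) := by ring
  rw [h7] at h6
  have h8 := log_tangent hR (by norm_num : (0 : ℝ) < 1 / 2)
  have h9 : Real.log (1 / 2 : ℝ) = -Real.log 2 := by rw [one_div, Real.log_inv]
  rw [h9] at h8
  have h10 : y.im ^ 2 ≤ 0 := by linarith
  have h11 : y.im = 0 := by
    have := le_antisymm h10 (sq_nonneg y.im)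
    exact pow_eq_zero_iff two_ne_zero |>.mp this
  have hy0 : y = 0 := Complex.ext hyre0 h11
  have hcm : co h m = 0 := by
    have : α * y = 0 := by rw [hy0, mul_zero]
    rw [hy, ← mul_assoc, hαα, one_mul] at this
    exact this
  refine ⟨hcm, ?_⟩
  by_contra hR2
  have h12 : R / 2 ≠ 1 := by
    intro h
    apply hR2
    linarith
  have h13 := Real.log_lt_sub_one_of_pos (by positivity : 0 < R / 2) h12
  rw [Real.log_div hR.ne' (by norm_num)] at h13
  have h14 := sq_nonneg y.im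
  linarith

/-- the core bound, when the middle term is absent -/
lemma bound_odd {p : ℝ} (hp : 1 < p) {n : ℕ} {β : ℂ} {h : ℂ → ℂ} (hn : 1 ≤ n)
    (hh : DifferentiableOn ℂ h (ball 0 1)) (hβ : ‖β‖ = 1)
    (hmean : ∀ ρ : ℝ, 0 < ρ → ρ < 1 →
      Real.circleAverage (fun z => Real.exp (p * (h z).re)) 0 ρ ≤ 1)
    {R : ℝ} (hR : 0 < R) (hRc : co h n = R * β) :
    (h 0).re + Real.log R ≤ (1 - 1 / p) * (Real.log 2 - 1) ∧
    ((h 0).re + Real.log R = (1 - 1 / p) * (Real.log 2 - 1) → R = 2) := by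
  have hp0 : 0 < p := by linarith
  have h5 := ineq_zero_one hn hh hβ hmean
  have hcn : ((starRingEnd ℂ) β * co h n).re = R := by
    rw [hRc, show (starRingEnd ℂ) β * (R * β) = (R : ℂ) * (β * (starRingEnd ℂ) β) by ring,
      Complex.mul_conj, Complex.normSq_eq_norm_sq, hβ]
    norm_num
  rw [hcn] at h5
  have h6 : (h 0).re + R / 2 ≤ (1 - Real.log 2) / p := by
    rw [le_div_iff₀ hp0]
    linarith
  have h7 : (1 - Real.log 2) / p = 1 / p * (1 - Real.log 2) := by ring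
  rw [h7] at h6
  have h8 := log_tangent hR (by norm_num : (0 : ℝ) < 1 / 2)
  have h9 : Real.log (1 / 2 : ℝ) = -Real.log 2 := by rw [one_div, Real.log_inv]
  rw [h9] at h8
  refine ⟨by linarith, fun heq => ?_⟩
  by_contra hR2
  have h12 : R / 2 ≠ 1 := by
    intro h
    apply hR2
    linarith
  have h13 := Real.log_lt_sub_one_of_pos (by positivity : 0 < R / 2) h12
  rw [Real.log_div hR.ne' (by norm_num)] at h13
  linarith

/-- The sparse class, expressed with a holomorphic logarithm: the bound and the equality data. -/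
theorem bound_all {p : ℝ} (hp : 1 < p) {n : ℕ} (hn : 1 ≤ n) {f h : ℂ → ℂ}
    (hh : DifferentiableOn ℂ h (ball 0 1))
    (hfh : ∀ z ∈ ball (0 : ℂ) 1, f z = Complex.exp (h z))
    (hmean : ∀ ρ : ℝ, 0 < ρ → ρ < 1 →
      Real.circleAverage (fun z => Real.exp (p * (h z).re)) 0 ρ ≤ 1)
    (hf : ∀ k, 1 ≤ k → 2 * k < n → co f k = 0) :
    ‖co f n‖ ≤ Real.exp ((1 - 1 / p) * (Real.log 2 - 1)) ∧
    (‖co f n‖ = Real.exp ((1 - 1 / p) * (Real.log 2 - 1)) →
      ∃ β : ℂ, ‖β‖ = 1 ∧ co h n = 2 * β ∧ (∀ k, 1 ≤ k → 2 * k ≤ n → co h k = 0) ∧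
        (h 0).re = (1 - 1 / p) * (Real.log 2 - 1) - Real.log 2) := by
  have hf0 : ‖co f 0‖ = Real.exp (h 0).re := by
    rw [co_zero, hfh 0 (mem_ball_self one_pos), Complex.norm_exp]
  obtain ⟨hA, -⟩ := coeff_rel hh hfh hf
  set M := (1 - 1 / p) * (Real.log 2 - 1) with hM
  rcases Nat.even_or_odd' n with ⟨m, hm | hm⟩
  · -- even
    have hm1 : 1 ≤ m := by omega
    have hcoe := coeff_even hh hfh hm1 hm hf
    by_cases hR0 : co h n + (co h m) ^ 2 / 2 = 0
    · rw [hcoe, hR0, mul_zero, norm_zero]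
      refine ⟨(Real.exp_pos _).le, fun h => ?_⟩
      exact absurd h (Real.exp_pos _).ne
    set Rc := co h n + (co h m) ^ 2 / 2 with hRc
    set R := ‖Rc‖ with hRdef
    have hRpos : 0 < R := norm_pos_iff.mpr hR0
    have hRne : (R : ℂ) ≠ 0 := by exact_mod_cast hRpos.ne'
    -- square root
    obtain ⟨α₀, hα₀⟩ : ∃ α₀ : ℂ, α₀ ^ 2 = Rc / R := IsAlgClosed.exists_pow_nat_eq (Rc / R) two_pos
    have hα₀n : ‖α₀‖ = 1 := by
      have h1 : ‖α₀‖ ^ 2 = 1 := by
        rw [← norm_pow, hα₀, norm_div, Complex.norm_real, Real.norm_eq_abs, abs_of_pos hRpos,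
          div_self hRpos.ne']
      nlinarith [norm_nonneg α₀]
    obtain ⟨α, hα2, hαn, hαX⟩ : ∃ α : ℂ, α ^ 2 = Rc / R ∧ ‖α‖ = 1 ∧
        0 ≤ ((starRingEnd ℂ) α * co h m).re := by
      by_cases hc : 0 ≤ ((starRingEnd ℂ) α₀ * co h m).re
      · exact ⟨α₀, hα₀, hα₀n, hc⟩
      · refine ⟨-α₀, by rw [neg_sq, hα₀], by rw [norm_neg, hα₀n], ?_⟩
        push Not at hc
        rw [map_neg, neg_mul, Complex.neg_re]
        linarith
    have hRβ : co h n + (co h m) ^ 2 / 2 = R * (α ^ 2) := by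
      rw [hα2, ← hRc]
      field_simp
    obtain ⟨h1, h2⟩ := bound_even hp hm1 hm rfl hh hαn hmean hRpos hRβ hαX
    have hval : ‖co f n‖ = Real.exp ((h 0).re + Real.log R) := by
      rw [hcoe, norm_mul, hf0, ← hRdef, Real.exp_add, Real.exp_log hRpos]
    refine ⟨?_, fun heq => ?_⟩
    · rw [hval]
      exact Real.exp_le_exp.mpr h1
    · rw [hval, Real.exp_eq_exp] at heq
      obtain ⟨h3, h4⟩ := h2 heq
      refine ⟨α ^ 2, by rw [norm_pow, hαn, one_pow], ?_, ?_, ?_⟩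
      · rw [h3, h4] at hRβ
        push_cast at hRβ
        linear_combination hRβ
      · intro k hk1 hk2
        rcases Nat.lt_or_ge (2 * k) n with h5 | h5
        · exact hA k hk1 h5
        · rw [show k = m by omega]
          exact h3
      · rw [h4] at heq
        linarith
  · -- odd
    have hcoe := coeff_odd hh hfh ⟨m, hm⟩ hf
    by_cases hR0 : co h n = 0
    · rw [hcoe, hR0, mul_zero, norm_zero]
      refine ⟨(Real.exp_pos _).le, fun h => ?_⟩
      exact absurd h (Real.exp_pos _).ne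
    set R := ‖co h n‖ with hRdef
    have hRpos : 0 < R := norm_pos_iff.mpr hR0
    have hRne : (R : ℂ) ≠ 0 := by exact_mod_cast hRpos.ne'
    have hβn : ‖co h n / R‖ = 1 := by
      rw [norm_div, Complex.norm_real, Real.norm_eq_abs, abs_of_pos hRpos, div_self hRpos.ne']
    have hRβ : co h n = R * (co h n / R) := by field_simp
    obtain ⟨h1, h2⟩ := bound_odd hp hn hh hβn hmean hRpos hRβ
    have hval : ‖co f n‖ = Real.exp ((h 0).re + Real.log R) := by
      rw [hcoe, norm_mul, hf0, ← hRdef, Real.exp_add, Real.exp_log hRpos]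
    refine ⟨?_, fun heq => ?_⟩
    · rw [hval]
      exact Real.exp_le_exp.mpr h1
    · rw [hval, Real.exp_eq_exp] at heq
      have h4 := h2 heq
      refine ⟨co h n / R, hβn, ?_, ?_, ?_⟩
      · rw [h4] at hRβ ⊢
        push_cast at hRβ ⊢
        exact hRβ
      · intro k hk1 hk2
        exact hA k hk1 (by omega)
      · rw [h4] at heq
        linarith

end Pool.Agent.H82.Hp
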