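import Mathlib
import Pool.Agent.H82.Hp.Bound

/-!
Fourier coefficients of `Re H` on circles and the recurrence forced by equality (`MP_ff17e6_an`).
-/

set_option autoImplicit false

open Metric Set Filter Topology

namespace Pool.Agent.H82.Hp

lemma norm_avg_le {f : ℂ → ℂ} {c : ℂ} {R : ℝ} :
    ‖Real.circleAverage f c R‖ ≤ Real.circleAverage (fun z => ‖f z‖) c R := by
  unfold Real.circleAverage
  rw [norm_smul, smul_eq_mul, Real.norm_eq_abs, abs_of_pos (inv_pos.mpr Real.two_pi_pos)]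
  apply mul_le_mul_of_nonneg_left _ (inv_pos.mpr Real.two_pi_pos).le
  exact intervalIntegral.norm_integral_le_integral_norm Real.two_pi_pos.le

/-- two-sided coefficients of `Re H` -/
noncomputable def qq (H : ℂ → ℂ) (k : ℤ) : ℂ :=
  if k = 0 then ((H 0).re : ℂ) else if 0 < k then co H k.toNat / 2
    else (starRingEnd ℂ) (co H (-k).toNat) / 2

lemma qq_zero (H : ℂ → ℂ) : qq H 0 = ((H 0).re : ℂ) := by simp [qq]

lemma qq_pos (H : ℂ → ℂ) {k : ℕ} (hk : 1 ≤ k) : qq H (k : ℤ) = co H k / 2 := by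
  unfold qq
  rw [if_neg (by omega), if_pos (by omega)]
  simp

lemma qq_neg (H : ℂ → ℂ) (k : ℤ) : qq H (-k) = (starRingEnd ℂ) (qq H k) := by
  unfold qq
  rcases lt_trichotomy k 0 with h | h | h
  · rw [if_neg (by omega), if_pos (by omega), if_neg (by omega), if_neg (by omega), map_div₀,
      Complex.conj_conj]
    rw [Complex.conj_ofNat]
  · subst h
    simp
  · rw [if_neg (by omega), if_neg (by omega), if_neg (by omega), if_pos (by omega), neg_neg,
      map_div₀]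
    rw [Complex.conj_ofNat]

lemma contOn_kernel {ρ : ℝ} (h0 : 0 < ρ) (k : ℤ) :
    ContinuousOn (fun z : ℂ => ((ρ : ℂ) / z) ^ k) (sphere 0 |ρ|) := by
  apply ContinuousOn.zpow₀
  · exact continuousOn_const.div continuousOn_id (fun z hz => z_ne h0 hz)
  · intro z hz
    left
    apply div_ne_zero
    · exact_mod_cast h0.ne'
    · exact z_ne h0 hz

lemma contOn_re {H : ℂ → ℂ} (hH : DifferentiableOn ℂ H (ball 0 1)) {ρ : ℝ} (h0 : 0 < ρ)
    (h1 : ρ < 1) : ContinuousOn (fun z => (H z).re) (sphere 0 |ρ|) :=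
  Complex.continuous_re.comp_continuousOn (circleIntegrable_of hH h0 h1)

/-- all Fourier coefficients of `Re H` -/
lemma avg_zpow_re {H : ℂ → ℂ} (hH : DifferentiableOn ℂ H (ball 0 1)) {ρ : ℝ} (h0 : 0 < ρ)
    (h1 : ρ < 1) (k : ℤ) :
    Real.circleAverage (fun z => ((ρ : ℂ) / z) ^ k * ((H z).re : ℂ)) 0 ρ
      = (ρ : ℂ) ^ k.natAbs * qq H k := by
  have hpos : ∀ j : ℕ, 1 ≤ j → Real.circleAverage (fun z => ((ρ : ℂ) / z) ^ (j : ℤ) * ((H z).re : ℂ)) 0 ρ
      = (ρ : ℂ) ^ j * qq H j := by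
    intro j hj
    have h2 := avg_neg_pow_re hH h0 h1 hj
    simp only [zpow_natCast]
    rw [h2, qq_pos H hj]
    ring
  rcases lt_trichotomy k 0 with h | h | h
  · obtain ⟨j, hj⟩ : ∃ j : ℕ, k = -(j : ℤ) := ⟨k.natAbs, by omega⟩
    have hj1 : 1 ≤ j := by omega
    subst hj
    have e1 : EqOn (fun z => ((ρ : ℂ) / z) ^ (-(j : ℤ)) * ((H z).re : ℂ))
        (Complex.conjCLE ∘ (fun z => ((ρ : ℂ) / z) ^ (j : ℤ) * ((H z).re : ℂ))) (sphere 0 |ρ|) := by
      intro z hz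
      have hc := conj_on_circle h0 hz
      have hc' : (starRingEnd ℂ) (ρ / z) = z / ρ := by rw [← hc, Complex.conj_conj]
      simp only [Function.comp_apply, Complex.conjCLE_apply, map_mul, Complex.conj_ofReal,
        map_zpow₀, hc']
      rw [zpow_neg, ← inv_zpow, inv_div]
    have c1 : ContinuousOn (fun z : ℂ => ((ρ : ℂ) / z) ^ (j : ℤ) * ((H z).re : ℂ)) (sphere 0 |ρ|) :=
      (contOn_kernel h0 j).mul (Complex.continuous_ofReal.comp_continuousOn (contOn_re hH h0 h1))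
    have h3 := (Complex.conjCLE : ℂ →L[ℝ] ℂ).circleAverage_comp_comm (c := 0) (R := ρ)
      (c1.circleIntegrable')
    rw [Real.circleAverage_congr_sphere e1]
    simp only [ContinuousLinearEquiv.coe_coe] at h3
    rw [h3, hpos j hj1, qq_neg]
    simp
  · subst h
    have h3 := Complex.ofRealCLM.circleAverage_comp_comm (c := 0) (R := ρ)
      ((contOn_re hH h0 h1).circleIntegrable')
    have e1 : (fun z => ((ρ : ℂ) / z) ^ (0 : ℤ) * ((H z).re : ℂ))
        = (Complex.ofRealCLM ∘ fun z => (H z).re) := by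
      ext z
      simp
    rw [e1, h3, avg_re hH h0 h1, qq_zero]
    simp
  · obtain ⟨j, hj⟩ : ∃ j : ℕ, k = (j : ℤ) := ⟨k.natAbs, by omega⟩
    subst hj
    rw [hpos j (by omega)]
    simp

/-- the kernel for `u = 0` -/
lemma TT_zero {ρ : ℝ} (h0 : 0 < ρ) (τ : ℝ) (n : ℕ) (β : ℂ) {z : ℂ} (hz : z ∈ sphere (0 : ℂ) |ρ|) :
    (TT ρ 0 τ n n 1 β z : ℂ)
      = 1 + τ * (β * ((ρ : ℂ) / z) ^ (-(n : ℤ)) + (starRingEnd ℂ) β * ((ρ : ℂ) / z) ^ (n : ℤ)) := by
  have hc := conj_on_circle h0 hz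
  have e1 : ((ρ : ℂ) / z) ^ (-(n : ℤ)) = (z / ρ) ^ n := by
    rw [zpow_neg, ← inv_zpow, inv_div, zpow_natCast]
  have e2 : ((ρ : ℂ) / z) ^ (n : ℤ) = (starRingEnd ℂ) ((z / ρ) ^ n) := by
    rw [zpow_natCast, map_pow, hc]
  rw [e1, e2, ← map_mul]
  unfold TT
  push_cast
  rw [Complex.re_eq_add_conj (β * (z / ρ) ^ n)]
  ring

/-- pairing with the kernel -/
lemma avg_kernel {H : ℂ → ℂ} (hH : DifferentiableOn ℂ H (ball 0 1)) {ρ : ℝ} (h0 : 0 < ρ)
    (h1 : ρ < 1) (τ : ℝ) (n : ℕ) (β : ℂ) (k : ℤ) :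
    Real.circleAverage (fun z => ((ρ : ℂ) / z) ^ k * ((TT ρ 0 τ n n 1 β z * (H z).re : ℝ) : ℂ)) 0 ρ
      = (ρ : ℂ) ^ k.natAbs * qq H k + τ * (β * ((ρ : ℂ) ^ (k - n).natAbs * qq H (k - n))
        + (starRingEnd ℂ) β * ((ρ : ℂ) ^ (k + n).natAbs * qq H (k + n))) := by
  have e1 : EqOn (fun z => ((ρ : ℂ) / z) ^ k * ((TT ρ 0 τ n n 1 β z * (H z).re : ℝ) : ℂ))
      (fun z => (((ρ : ℂ) / z) ^ k * ((H z).re : ℂ)
        + (τ * β) • (((ρ : ℂ) / z) ^ (k - n) * ((H z).re : ℂ)))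
        + (τ * (starRingEnd ℂ) β) • (((ρ : ℂ) / z) ^ (k + n) * ((H z).re : ℂ)))
      (sphere 0 |ρ|) := by
    intro z hz
    have hne : (ρ : ℂ) / z ≠ 0 := div_ne_zero (by exact_mod_cast h0.ne') (z_ne h0 hz)
    simp only [Complex.ofReal_mul, smul_eq_mul]
    rw [TT_zero h0 τ n β hz, sub_eq_add_neg, zpow_add₀ hne, zpow_add₀ hne]
    ring
  have c1 : ∀ j : ℤ, ContinuousOn (fun z : ℂ => ((ρ : ℂ) / z) ^ j * ((H z).re : ℂ))
      (sphere 0 |ρ|) := fun j =>
    (contOn_kernel h0 j).mul (Complex.continuous_ofReal.comp_continuousOn (contOn_re hH h0 h1))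
  have c2 : CircleIntegrable (fun z : ℂ => (τ * β) • (((ρ : ℂ) / z) ^ (k - n) * ((H z).re : ℂ)))
      0 ρ := ((c1 (k - n)).const_smul (τ * β)).circleIntegrable'
  have c3 : CircleIntegrable (fun z : ℂ => (τ * (starRingEnd ℂ) β) •
      (((ρ : ℂ) / z) ^ (k + n) * ((H z).re : ℂ))) 0 ρ :=
    ((c1 (k + n)).const_smul (τ * (starRingEnd ℂ) β)).circleIntegrable'
  have c4 : CircleIntegrable (fun z : ℂ => ((ρ : ℂ) / z) ^ k * ((H z).re : ℂ)) 0 ρ :=
    (c1 k).circleIntegrable'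
  have c5 : CircleIntegrable (fun z : ℂ => ((ρ : ℂ) / z) ^ k * ((H z).re : ℂ)
        + (τ * β) • (((ρ : ℂ) / z) ^ (k - n) * ((H z).re : ℂ))) 0 ρ := c4.add c2
  rw [Real.circleAverage_congr_sphere e1, Real.circleAverage_fun_add c5 c3,
    Real.circleAverage_fun_add c4 c2, Real.circleAverage_fun_smul, Real.circleAverage_fun_smul,
    avg_zpow_re hH h0 h1, avg_zpow_re hH h0 h1, avg_zpow_re hH h0 h1]
  simp only [smul_eq_mul]
  ring

/-- pointwise stability of Gibbs -/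
lemma gibbs_stab {T w : ℝ} (hT : 0 < T) (hw : 0 < w) {ε : ℝ} (hε : 0 < ε) :
    |T * (Real.log w - Real.log T)|
      ≤ (1 + 1 / (2 * ε)) * (T * (Real.log T - Real.log w) - T + w) + ε * (T + w) := by
  set d := T * (Real.log T - Real.log w) - T + w with hd
  set a := Real.sqrt T with ha
  set b := Real.sqrt w with hb
  have ha0 : 0 < a := Real.sqrt_pos.mpr hT
  have hb0 : 0 < b := Real.sqrt_pos.mpr hw
  have ha2 : a ^ 2 = T := Real.sq_sqrt hT.le
  have hb2 : b ^ 2 = w := Real.sq_sqrt hw.le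
  have h1 : (a - b) ^ 2 ≤ d := by
    have h2 := Real.log_le_sub_one_of_pos (div_pos hb0 ha0)
    rw [Real.log_div hb0.ne' ha0.ne'] at h2
    have h3 : Real.log T = 2 * Real.log a := by rw [← ha2, Real.log_pow]; norm_num
    have h4 : Real.log w = 2 * Real.log b := by rw [← hb2, Real.log_pow]; norm_num
    rw [hd, h3, h4, ← ha2, ← hb2]
    have h5 : a ^ 2 * (Real.log b - Real.log a) ≤ a ^ 2 * (b / a - 1) := by gcongr
    have h6 : a ^ 2 * (b / a - 1) = a * b - a ^ 2 := by field_simp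
    nlinarith
  have h2 : |w - T| ≤ d / (2 * ε) + ε * (T + w) := by
    have h3 : |w - T| = |a - b| * (a + b) := by
      rw [← ha2, ← hb2, show b ^ 2 - a ^ 2 = (b - a) * (a + b) by ring, abs_mul,
        abs_of_pos (by positivity : 0 < a + b), abs_sub_comm]
    have h4 : |a - b| * (a + b) ≤ |a - b| ^ 2 / (2 * ε) + ε / 2 * (a + b) ^ 2 := by
      have h5 : 0 ≤ (|a - b| - ε * (a + b)) ^ 2 := sq_nonneg _
      rw [div_add' _ _ _ (by positivity), le_div_iff₀ (by positivity)]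
      nlinarith
    have h6 : ε / 2 * (a + b) ^ 2 ≤ ε * (T + w) := by
      rw [← ha2, ← hb2]
      nlinarith [sq_nonneg (a - b)]
    have h7 : |a - b| ^ 2 / (2 * ε) ≤ d / (2 * ε) := by
      rw [sq_abs]
      gcongr
    rw [h3]
    linarith
  have hd0 : 0 ≤ d := le_trans (sq_nonneg _) h1
  have h3 : T * (Real.log w - Real.log T) = (w - T) - d := by rw [hd]; ring
  rw [h3]
  calc |w - T - d| ≤ |w - T| + |d| := abs_sub _ _
    _ = |w - T| + d := by rw [abs_of_nonneg hd0]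
    _ ≤ d / (2 * ε) + ε * (T + w) + d := by linarith
    _ = _ := by ring

/-- boundedness of the coefficients -/
lemma co_bound {p : ℝ} (hp : 0 < p) {h : ℂ → ℂ} (hh : DifferentiableOn ℂ h (ball 0 1))
    (hmean : ∀ ρ : ℝ, 0 < ρ → ρ < 1 →
      Real.circleAverage (fun z => Real.exp (p * (h z).re)) 0 ρ ≤ 1) (k : ℤ) :
    ‖qq h k‖ ≤ 2 / p - (h 0).re := by
  have key : ∀ ρ : ℝ, 0 < ρ → ρ < 1 → ‖(ρ : ℂ) ^ k.natAbs * qq h k‖ ≤ 2 / p - (h 0).re := by
    intro ρ h0 h1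
    rw [← avg_zpow_re hh h0 h1 k]
    refine norm_avg_le.trans ?_
    have hre := contOn_re hh h0 h1
    have c1 : CircleIntegrable (fun z => ‖((ρ : ℂ) / z) ^ k * ((h z).re : ℂ)‖) 0 ρ :=
      (((contOn_kernel h0 k).mul
        (Complex.continuous_ofReal.comp_continuousOn hre)).norm).circleIntegrable'
    have c2' : ContinuousOn (fun z => Real.exp (p * (h z).re)) (sphere 0 |ρ|) :=
      Real.continuous_exp.comp_continuousOn (continuousOn_const.mul hre)
    have c2 : CircleIntegrable (fun z => (2 / p) • Real.exp (p * (h z).re)) 0 ρ :=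
      (c2'.const_smul (2 / p)).circleIntegrable'
    have c3 : CircleIntegrable (fun z => (h z).re) 0 ρ := hre.circleIntegrable'
    have c4 : CircleIntegrable (fun z => (2 / p) • Real.exp (p * (h z).re) - (h z).re) 0 ρ :=
      c2.sub c3
    calc Real.circleAverage (fun z => ‖((ρ : ℂ) / z) ^ k * ((h z).re : ℂ)‖) 0 ρ
        ≤ Real.circleAverage (fun z => (2 / p) • Real.exp (p * (h z).re) - (h z).re) 0 ρ := by
          apply Real.circleAverage_mono c1 c4
          intro z hz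
          have e1 : ‖((ρ : ℂ) / z) ^ k * ((h z).re : ℂ)‖ = |(h z).re| := by
            rw [norm_mul, norm_zpow, norm_div, norm_z h0 hz, Complex.norm_real, Complex.norm_real,
              Real.norm_eq_abs, Real.norm_eq_abs, abs_of_pos h0, div_self h0.ne', one_zpow, one_mul]
          rw [e1, smul_eq_mul]
          set x := (h z).re
          have e2 : p * x + 1 ≤ Real.exp (p * x) := Real.add_one_le_exp _
          have e3 : x ≤ 1 / p * Real.exp (p * x) := by
            rw [one_div, ← div_eq_inv_mul, le_div_iff₀ hp]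
            linarith
          have e4 : 0 < 1 / p * Real.exp (p * x) := by positivity
          have e5 : 2 / p * Real.exp (p * x) = 2 * (1 / p * Real.exp (p * x)) := by ring
          rw [e5]
          rcases abs_cases x with ⟨h5, h6⟩ | ⟨h5, h6⟩ <;> rw [h5] <;> linarith
      _ = 2 / p * Real.circleAverage (fun z => Real.exp (p * (h z).re)) 0 ρ - (h 0).re := by
          rw [Real.circleAverage_fun_sub c2 c3, Real.circleAverage_fun_smul, avg_re hh h0 h1,
            smul_eq_mul]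
      _ ≤ 2 / p - (h 0).re := by
          have h5 := hmean ρ h0 h1
          have h6 : 2 / p * Real.circleAverage (fun z => Real.exp (p * (h z).re)) 0 ρ
              ≤ 2 / p * 1 := by gcongr
          linarith
  have h1 : Tendsto (fun ρ : ℝ => ‖(ρ : ℂ) ^ k.natAbs * qq h k‖) (𝓝[<] 1)
      (𝓝 ‖((1 : ℝ) : ℂ) ^ k.natAbs * qq h k‖) := by
    have h2 : Continuous (fun ρ : ℝ => ‖(ρ : ℂ) ^ k.natAbs * qq h k‖) := by fun_prop
    exact (h2.tendsto 1).mono_left nhdsWithin_le_nhds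
  have h2 : ‖((1 : ℝ) : ℂ) ^ k.natAbs * qq h k‖ = ‖qq h k‖ := by simp
  rw [← h2]
  apply le_of_tendsto h1
  filter_upwards [Ioo_mem_nhdsLT (one_pos : (0 : ℝ) < 1)] with ρ hρ
  exact key ρ hρ.1 hρ.2

end Pool.Agent.H82.Hp
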