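import Mathlib
import Pool.Agent.H82.Hp.Fourier

/-!
Uniqueness of the extremal functions (`MP_ff17e6_an`).
-/

set_option autoImplicit false

open Metric Set Filter Topology

namespace Pool.Agent.H82.Hp

lemma Phi_one_eq {p : ℝ} (hp : 1 < p) {n : ℕ} {h g : ℂ → ℂ} {β : ℂ} (hβ : ‖β‖ = 1)
    (hL : LogData 0 1 n n 1 β g) (hcn : co h n = 2 * β)
    (hre : (h 0).re = (1 - 1 / p) * (Real.log 2 - 1) - Real.log 2) :
    Phi p 0 1 n n 1 β h g 1 = 0 := by
  have hp0 : p ≠ 0 := by linarith
  have e1 : ((starRingEnd ℂ) β * co h n).re = 2 := by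
    rw [hcn, show (starRingEnd ℂ) β * (2 * β) = 2 * (β * (starRingEnd ℂ) β) by ring,
      Complex.mul_conj, Complex.normSq_eq_norm_sq, hβ]
    norm_num
  have e2 : ((starRingEnd ℂ) β * co g n).re = 1 := by
    rw [hL.con, ← mul_assoc, mul_comm ((starRingEnd ℂ) β) β, Complex.mul_conj,
      Complex.normSq_eq_norm_sq, hβ]
    norm_num
  unfold Phi
  rw [e1, e2, hre]
  simp only [one_pow, mul_one]
  rw [NN_zero_one]
  have h2 : Real.log (1 / 2 : ℝ) = -Real.log 2 := by
    rw [one_div, Real.log_inv]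
  rw [h2]
  field_simp
  ring

/-- equality forces the recurrence -/
theorem recurrence {p : ℝ} (hp : 1 < p) {n : ℕ} (hn : 1 ≤ n) {h g : ℂ → ℂ} {β : ℂ}
    (hh : DifferentiableOn ℂ h (ball 0 1)) (hβ : ‖β‖ = 1) (hL : LogData 0 1 n n 1 β g)
    (hmean : ∀ ρ : ℝ, 0 < ρ → ρ < 1 →
      Real.circleAverage (fun z => Real.exp (p * (h z).re)) 0 ρ ≤ 1)
    (hcn : co h n = 2 * β)
    (hre : (h 0).re = (1 - 1 / p) * (Real.log 2 - 1) - Real.log 2) (k : ℤ) :
    qq (HH p (Real.log (1 / 2)) h g) k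
      + (1 / 2 : ℝ) * (β * qq (HH p (Real.log (1 / 2)) h g) (k - n)
        + (starRingEnd ℂ) β * qq (HH p (Real.log (1 / 2)) h g) (k + n)) = 0 := by
  set H := HH p (Real.log (1 / 2)) h g with hHdef
  have hH : DifferentiableOn ℂ H (ball 0 1) := HH_diff hh hL.diff _ _
  have hPhi1 := Phi_one_eq hp hβ hL hcn hre
  -- the function of ρ
  set W : ℝ → ℂ := fun ρ => (ρ : ℂ) ^ k.natAbs * qq H k
    + ((NN (0 * ρ ^ n) (1 * ρ ^ n) * (1 * ρ ^ n) : ℝ) : ℂ)
      * (β * ((ρ : ℂ) ^ (k - n).natAbs * qq H (k - n))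
        + (starRingEnd ℂ) β * ((ρ : ℂ) ^ (k + n).natAbs * qq H (k + n))) with hW
  have hNc : Continuous (fun ρ : ℝ => NN (0 * ρ ^ n) (1 * ρ ^ n)) :=
    continuous_NN.comp (by fun_prop : Continuous fun ρ : ℝ => ((0 * ρ ^ n, 1 * ρ ^ n) : ℝ × ℝ))
  have hWc : Continuous W := by
    rw [hW]
    have : Continuous (fun ρ : ℝ => ((NN (0 * ρ ^ n) (1 * ρ ^ n) * (1 * ρ ^ n) : ℝ) : ℂ)) :=
      Complex.continuous_ofReal.comp (hNc.mul (by fun_prop))
    fun_prop
  have hW1 : W 1 = qq H k + (1 / 2 : ℝ) * (β * qq H (k - n) + (starRingEnd ℂ) β * qq H (k + n)) := by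
    rw [hW]
    simp only [one_pow, mul_one, Complex.ofReal_one, one_mul]
    rw [NN_zero_one]
  rw [← hW1]
  have key : ∀ ε : ℝ, 0 < ε → ‖W 1‖ ≤ 2 * ε := by
    intro ε hε
    have hbd : ∀ ρ : ℝ, 0 < ρ → ρ < 1 → ‖W ρ‖
        ≤ (1 + 1 / (2 * ε)) * (-Phi p 0 1 n n 1 β h g ρ) + ε * 2
          + |Real.log (NN (0 * ρ ^ n) (1 * ρ ^ n)) - Real.log (1 / 2)| := by
      intro ρ h0 h1
      set N := NN (0 * ρ ^ n) (1 * ρ ^ n) with hN
      have hNpos : 0 < N := NN_pos _ _
      set τ := N * (1 * ρ ^ n) with hτ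
      set ℓ := |Real.log N - Real.log (1 / 2)| with hℓ
      have hadm : Adm n n 0 1 β := Or.inr rfl
      have h2 := avg_kernel hH h0 h1 τ n β k
      have h3 : W ρ = Real.circleAverage (fun z => ((ρ : ℂ) / z) ^ k
          * ((TT ρ 0 τ n n 1 β z * (H z).re : ℝ) : ℂ)) 0 ρ := by
        rw [h2]
      rw [h3]
      have hTeq : ∀ z ∈ sphere (0 : ℂ) |ρ|, TT ρ 0 τ n n 1 β z
          = N * Real.exp (2 * (g z).re) := by
        intro z hz
        have h4 := TT_eq_exp hL (by simp) hβ hadm h0 h1 hz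
        rw [← hN] at h4
        rw [h4, hτ]
        congr 1
        ring
      refine norm_avg_le.trans ?_
      have hre' := contOn_re hh h0 h1
      have hgre := contOn_re hL.diff h0 h1
      have hHre := contOn_re hH h0 h1
      have hTc : ContinuousOn (TT ρ 0 τ n n 1 β) (sphere 0 |ρ|) :=
        (continuousOn_TT ρ 0 τ n n 1 β).continuousOn
      have c1 : CircleIntegrable (fun z => ‖((ρ : ℂ) / z) ^ k
          * ((TT ρ 0 τ n n 1 β z * (H z).re : ℝ) : ℂ)‖) 0 ρ := by
        apply ContinuousOn.circleIntegrable'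
        apply ContinuousOn.norm
        apply (contOn_kernel h0 k).mul
        exact Complex.continuous_ofReal.comp_continuousOn (hTc.mul hHre)
      have hw : ContinuousOn (fun z => Real.exp (p * (h z).re)) (sphere 0 |ρ|) :=
        Real.continuous_exp.comp_continuousOn (continuousOn_const.mul hre')
      have hTe : ContinuousOn (fun z => N * Real.exp (2 * (g z).re)) (sphere 0 |ρ|) :=
        continuousOn_const.mul (Real.continuous_exp.comp_continuousOn (continuousOn_const.mul hgre))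
      have hdc : ContinuousOn (dfc p N h g) (sphere 0 |ρ|) := by
        unfold dfc
        apply ContinuousOn.add _ hw
        apply ContinuousOn.sub _ hTe
        apply hTe.mul
        exact (continuousOn_const.add (continuousOn_const.mul hgre)).sub
          (continuousOn_const.mul hre')
      have c2 : CircleIntegrable (fun z => (1 + 1 / (2 * ε)) • dfc p N h g z) 0 ρ :=
        (hdc.const_smul (1 + 1 / (2 * ε))).circleIntegrable'
      have c3 : CircleIntegrable (fun z => ε • Real.exp (p * (h z).re)) 0 ρ :=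
        (hw.const_smul ε).circleIntegrable'
      have c4 : CircleIntegrable (fun z => (ε + ℓ) • TT ρ 0 τ n n 1 β z) 0 ρ :=
        (hTc.const_smul (ε + ℓ)).circleIntegrable'
      have c5 : CircleIntegrable (fun z => (1 + 1 / (2 * ε)) • dfc p N h g z
          + ε • Real.exp (p * (h z).re)) 0 ρ := c2.add c3
      have c6 : CircleIntegrable (fun z => ((1 + 1 / (2 * ε)) • dfc p N h g z
          + ε • Real.exp (p * (h z).re)) + (ε + ℓ) • TT ρ 0 τ n n 1 β z) 0 ρ := c5.add c4
      have hpt : ∀ z ∈ sphere (0 : ℂ) |ρ|, ‖((ρ : ℂ) / z) ^ k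
          * ((TT ρ 0 τ n n 1 β z * (H z).re : ℝ) : ℂ)‖
          ≤ ((1 + 1 / (2 * ε)) • dfc p N h g z
          + ε • Real.exp (p * (h z).re)) + (ε + ℓ) • TT ρ 0 τ n n 1 β z := by
        intro z hz
        have e1 : ‖((ρ : ℂ) / z) ^ k * ((TT ρ 0 τ n n 1 β z * (H z).re : ℝ) : ℂ)‖
            = |TT ρ 0 τ n n 1 β z * (H z).re| := by
          rw [norm_mul, norm_zpow, norm_div, norm_z h0 hz, Complex.norm_real, Complex.norm_real,
            Real.norm_eq_abs, Real.norm_eq_abs, abs_of_pos h0, div_self h0.ne', one_zpow, one_mul]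
        rw [e1, hTeq z hz]
        set T := N * Real.exp (2 * (g z).re) with hT
        have hTpos : 0 < T := by positivity
        have hlogT : Real.log T = Real.log N + 2 * (g z).re := by
          rw [hT, Real.log_mul hNpos.ne' (Real.exp_pos _).ne', Real.log_exp]
        have hst := gibbs_stab hTpos (Real.exp_pos (p * (h z).re)) hε
        rw [Real.log_exp] at hst
        have hd : dfc p N h g z = T * (Real.log T - p * (h z).re) - T
            + Real.exp (p * (h z).re) := by
          unfold dfc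
          rw [← hT, hlogT]
        have hHr : (H z).re = (p * (h z).re - Real.log T)
            + (Real.log N - Real.log (1 / 2)) := by
          rw [hHdef, HH_re, hlogT]
          ring
        rw [hHr, mul_add]
        calc |T * (p * (h z).re - Real.log T) + T * (Real.log N - Real.log (1 / 2))|
            ≤ |T * (p * (h z).re - Real.log T)| + |T * (Real.log N - Real.log (1 / 2))| :=
              abs_add_le _ _
          _ = |T * (p * (h z).re - Real.log T)| + T * ℓ := by
              congr 1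
              rw [abs_mul, abs_of_pos hTpos]
          _ ≤ _ := by
              rw [hd]
              simp only [smul_eq_mul]
              linarith
      refine (Real.circleAverage_mono c1 c6 hpt).trans ?_
      rw [Real.circleAverage_fun_add c5 c4, Real.circleAverage_fun_add c2 c3,
        Real.circleAverage_fun_smul, Real.circleAverage_fun_smul, Real.circleAverage_fun_smul]
      have h5 := avg_dfc (p := p) hn hn hh hL (by simp) hβ hadm h0 h1
      rw [← hN] at h5
      have h6 := hmean ρ h0 h1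
      have h7 : Real.circleAverage (fun z => dfc p N h g z) 0 ρ ≤ -Phi p 0 1 n n 1 β h g ρ := by
        have : Real.circleAverage (fun z => dfc p N h g z) 0 ρ
          = Real.circleAverage (dfc p N h g) 0 ρ := rfl
        rw [this, h5]
        linarith
      have h8 : Real.circleAverage (fun z => TT ρ 0 τ n n 1 β z) 0 ρ = 1 :=
        avg_TT_one h0 h1 hn hn 0 τ 1 β
      rw [h8]
      simp only [smul_eq_mul]
      have h9 : (1 + 1 / (2 * ε)) * Real.circleAverage (fun z => dfc p N h g z) 0 ρ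
          ≤ (1 + 1 / (2 * ε)) * (-Phi p 0 1 n n 1 β h g ρ) := by gcongr
      have h10 : ε * Real.circleAverage (fun z => Real.exp (p * (h z).re)) 0 ρ ≤ ε * 1 := by
        gcongr
      linarith
    have hlim1 : Tendsto (fun ρ => ‖W ρ‖) (𝓝[<] 1) (𝓝 ‖W 1‖) :=
      ((hWc.norm).tendsto 1).mono_left nhdsWithin_le_nhds
    have hlogc : Continuous (fun ρ : ℝ => Real.log (NN (0 * ρ ^ n) (1 * ρ ^ n))) :=
      hNc.log (fun ρ => (NN_pos _ _).ne')
    have hPc := continuous_Phi p 0 1 n n 1 β h g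
    set B : ℝ → ℝ := fun ρ => (1 + 1 / (2 * ε)) * (-Phi p 0 1 n n 1 β h g ρ) + ε * 2
          + |Real.log (NN (0 * ρ ^ n) (1 * ρ ^ n)) - Real.log (1 / 2)| with hB
    have hBc : Continuous B := by
      rw [hB]
      fun_prop
    have hB1 : B 1 = 2 * ε := by
      rw [hB]
      simp only [one_pow, mul_one]
      rw [hPhi1, NN_zero_one]
      simp
      ring
    rw [← hB1]
    apply le_of_tendsto_of_tendsto hlim1 ((hBc.tendsto 1).mono_left nhdsWithin_le_nhds)
    filter_upwards [Ioo_mem_nhdsLT (one_pos : (0 : ℝ) < 1)] with ρ hρ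
    exact hbd ρ hρ.1 hρ.2
  have h0 : ‖W 1‖ ≤ 0 := by
    by_contra hc
    push Not at hc
    have := key (‖W 1‖ / 4) (by linarith)
    linarith
  exact norm_le_zero_iff.mp h0

lemma qq_HH_sub {h h' g : ℂ → ℂ} (hh : DifferentiableOn ℂ h (ball 0 1))
    (hh' : DifferentiableOn ℂ h' (ball 0 1)) (hg : DifferentiableOn ℂ g (ball 0 1)) (p ν : ℝ)
    (k : ℤ) : qq (HH p ν h g) k - qq (HH p ν h' g) k = p * (qq h k - qq h' k) := by
  have hpos : ∀ j : ℕ, 1 ≤ j → qq (HH p ν h g) j - qq (HH p ν h' g) j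
      = p * (qq h j - qq h' j) := by
    intro j hj
    rw [qq_pos _ hj, qq_pos _ hj, qq_pos _ hj, qq_pos _ hj, co_HH hh hg _ _ hj,
      co_HH hh' hg _ _ hj]
    ring
  rcases lt_trichotomy k 0 with h1 | h1 | h1
  · obtain ⟨j, hj⟩ : ∃ j : ℕ, k = -(j : ℤ) := ⟨k.natAbs, by omega⟩
    subst hj
    rw [qq_neg, qq_neg, qq_neg, qq_neg, ← map_sub, hpos j (by omega), map_mul, map_sub,
      Complex.conj_ofReal]
  · subst h1
    rw [qq_zero, qq_zero, qq_zero, qq_zero, HH_re, HH_re]
    push_cast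
    ring
  · obtain ⟨j, hj⟩ : ∃ j : ℕ, k = (j : ℤ) := ⟨k.natAbs, by omega⟩
    subst hj
    exact hpos j (by omega)

/-- bounded solutions of the recurrence -/
lemma seq_step {x : ℤ → ℂ} {β : ℂ} (hβ : ‖β‖ = 1) {n : ℕ} {C : ℝ} (hC : ∀ k, ‖x k‖ ≤ C)
    (hrec : ∀ k : ℤ, x k + (1 / 2 : ℝ) * (β * x (k - n) + (starRingEnd ℂ) β * x (k + n)) = 0)
    (r : ℤ) : x (r + n) = -β * x r := by
  have hββ : β * (starRingEnd ℂ) β = 1 := by
    rw [Complex.mul_conj, Complex.normSq_eq_norm_sq, hβ]; norm_num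
  set b := -(starRingEnd ℂ) β with hb
  set y : ℕ → ℂ := fun j => b ^ j * x (r + j * n) with hy
  have hbn : ‖b‖ = 1 := by rw [hb, norm_neg, RCLike.norm_conj, hβ]
  have hy2 : ∀ j : ℕ, y (j + 2) = 2 * y (j + 1) - y j := by
    intro j
    have h1 := hrec (r + (j + 1 : ℕ) * n)
    have e1 : r + ((j + 1 : ℕ) : ℤ) * n - n = r + j * n := by push_cast; ring
    have e2 : r + ((j + 1 : ℕ) : ℤ) * n + n = r + ((j + 2 : ℕ) : ℤ) * n := by push_cast; ring
    rw [e1, e2] at h1
    simp only [hy]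
    have h2 : b * β = -1 := by rw [hb]; linear_combination -hββ
    have h3 : (starRingEnd ℂ) β = -b := by rw [hb]; ring
    rw [h3] at h1
    push_cast at h1 ⊢
    rw [pow_succ, pow_succ]
    linear_combination (-2 * b ^ j * b) * h1 + (b ^ j * x (r + j * n)) * h2
  have hlin : ∀ j : ℕ, y j = y 0 + j * (y 1 - y 0) := by
    intro j
    induction j using Nat.strong_induction_on with
    | _ j ih =>
      match j with
      | 0 => simp
      | 1 => simp
      | j + 2 =>
        rw [hy2, ih (j + 1) (by omega), ih j (by omega)]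
        push_cast
        ring
  have hyC : ∀ j : ℕ, ‖y j‖ ≤ C := by
    intro j
    simp only [hy]
    rw [norm_mul, norm_pow, hbn, one_pow, one_mul]
    exact hC _
  have h1 : y 1 - y 0 = 0 := by
    by_contra hne
    have hpos : 0 < ‖y 1 - y 0‖ := norm_pos_iff.mpr hne
    obtain ⟨j, hj⟩ := exists_nat_gt (2 * C / ‖y 1 - y 0‖)
    rw [div_lt_iff₀ hpos] at hj
    have h2 : (j : ℂ) * (y 1 - y 0) = y j - y 0 := by rw [hlin j]; ring
    have h3 := congrArg norm h2
    rw [norm_mul, Complex.norm_natCast] at h3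
    have h4 := norm_sub_le (y j) (y 0)
    have h5 := hyC j
    have h6 := hyC 0
    linarith
  have h2 : y 1 = y 0 := by linear_combination h1
  simp only [hy] at h2
  simp only [pow_one, pow_zero, one_mul, Nat.cast_one, Nat.cast_zero, zero_mul, add_zero] at h2
  rw [hb] at h2
  calc x (r + n) = β * (starRingEnd ℂ) β * x (r + n) := by rw [hββ, one_mul]
    _ = -β * x r := by linear_combination (-β) * h2

lemma seq_zero {x : ℤ → ℂ} {β : ℂ} (hβ : ‖β‖ = 1) {n : ℕ} (hn : 1 ≤ n) {C : ℝ}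
    (hC : ∀ k, ‖x k‖ ≤ C)
    (hrec : ∀ k : ℤ, x k + (1 / 2 : ℝ) * (β * x (k - n) + (starRingEnd ℂ) β * x (k + n)) = 0)
    (hneg : ∀ k, x (-k) = (starRingEnd ℂ) (x k))
    (hsmall : ∀ k : ℕ, 2 * k ≤ n → x k = 0) (k : ℕ) : x k = 0 := by
  induction k using Nat.strong_induction_on with
  | _ k ih =>
    by_cases h1 : 2 * k ≤ n
    · exact hsmall k h1
    · by_cases h2 : k < n
      · have h3 := seq_step hβ hC hrec ((k : ℤ) - n)
        rw [sub_add_cancel] at h3
        rw [h3, show (k : ℤ) - n = -((n - k : ℕ) : ℤ) by omega, hneg,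
          hsmall (n - k) (by omega)]
        simp
      · have h3 := seq_step hβ hC hrec ((k : ℤ) - n)
        rw [sub_add_cancel] at h3
        rw [h3, show (k : ℤ) - n = ((k - n : ℕ) : ℤ) by omega, ih (k - n) (by omega)]
        simp

/-- two extremal functions with the same `β` differ by a unimodular constant -/
theorem unique_pair {p : ℝ} (hp : 1 < p) {n : ℕ} (hn : 1 ≤ n) {h h' : ℂ → ℂ} {β : ℂ}
    (hβ : ‖β‖ = 1)
    (hh : DifferentiableOn ℂ h (ball 0 1)) (hh' : DifferentiableOn ℂ h' (ball 0 1))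
    (hmean : ∀ ρ : ℝ, 0 < ρ → ρ < 1 →
      Real.circleAverage (fun z => Real.exp (p * (h z).re)) 0 ρ ≤ 1)
    (hmean' : ∀ ρ : ℝ, 0 < ρ → ρ < 1 →
      Real.circleAverage (fun z => Real.exp (p * (h' z).re)) 0 ρ ≤ 1)
    (hcn : co h n = 2 * β) (hcn' : co h' n = 2 * β)
    (hsm : ∀ k, 1 ≤ k → 2 * k ≤ n → co h k = 0) (hsm' : ∀ k, 1 ≤ k → 2 * k ≤ n → co h' k = 0)
    (hre : (h 0).re = (1 - 1 / p) * (Real.log 2 - 1) - Real.log 2)
    (hre' : (h' 0).re = (1 - 1 / p) * (Real.log 2 - 1) - Real.log 2) :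
    ∀ z ∈ ball (0 : ℂ) 1, h z - h' z = ((h 0).im - (h' 0).im : ℝ) * Complex.I := by
  have hp0 : 0 < p := by linarith
  obtain ⟨g, hL⟩ := exists_logData (u := 0) (v := 1) (m := n) (n := n) (α := 1) (β := β) hn hn
    (Or.inr rfl) (PP_ne_zero_one hn hβ)
  set x : ℤ → ℂ := fun k => qq h k - qq h' k with hx
  have hrec : ∀ k : ℤ, x k + (1 / 2 : ℝ) * (β * x (k - n) + (starRingEnd ℂ) β * x (k + n)) = 0 := by
    intro k
    have h1 := recurrence hp hn hh hβ hL hmean hcn hre k
    have h2 := recurrence hp hn hh' hβ hL hmean' hcn' hre' k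
    have e1 := qq_HH_sub hh hh' hL.diff p (Real.log (1 / 2)) k
    have e2 := qq_HH_sub hh hh' hL.diff p (Real.log (1 / 2)) (k - n)
    have e3 := qq_HH_sub hh hh' hL.diff p (Real.log (1 / 2)) (k + n)
    have hpc : (p : ℂ) ≠ 0 := by exact_mod_cast hp0.ne'
    have h3 : (p : ℂ) * (x k + (1 / 2 : ℝ) * (β * x (k - n) + (starRingEnd ℂ) β * x (k + n)))
        = 0 := by
      simp only [hx]
      linear_combination h1 - h2 - e1 - (1 / 2 : ℝ) * β * e2
        - (1 / 2 : ℝ) * (starRingEnd ℂ) β * e3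
    exact (mul_eq_zero.mp h3).resolve_left hpc
  have hC : ∀ k, ‖x k‖ ≤ (2 / p - (h 0).re) + (2 / p - (h' 0).re) := fun k =>
    (norm_sub_le _ _).trans (add_le_add (co_bound hp0 hh hmean k) (co_bound hp0 hh' hmean' k))
  have hneg : ∀ k, x (-k) = (starRingEnd ℂ) (x k) := by
    intro k
    simp only [hx]
    rw [qq_neg, qq_neg, map_sub]
  have hsmall : ∀ k : ℕ, 2 * k ≤ n → x k = 0 := by
    intro k hk
    simp only [hx]
    rcases Nat.eq_zero_or_pos k with h1 | h1
    · subst h1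
      simp only [Nat.cast_zero]
      rw [qq_zero, qq_zero, hre, hre', sub_self]
    · rw [qq_pos _ h1, qq_pos _ h1, hsm k h1 hk, hsm' k h1 hk, sub_self]
  have hx0 := seq_zero hβ hn hC hrec hneg hsmall
  have hco : ∀ k : ℕ, 1 ≤ k → co h k = co h' k := by
    intro k hk
    have h1 := hx0 k
    simp only [hx] at h1
    rw [qq_pos _ hk, qq_pos _ hk] at h1
    linear_combination 2 * h1
  intro z hz
  have h1 := Complex.taylorSeries_eq_on_ball' hz hh
  have h2 := Complex.taylorSeries_eq_on_ball' hz hh'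
  have s1 := (Complex.hasSum_taylorSeries_on_ball hh hz)
  have s2 := (Complex.hasSum_taylorSeries_on_ball hh' hz)
  have s3 := s1.sub s2
  have hterm : ∀ k : ℕ, k ≠ 0 → ((k.factorial : ℂ)⁻¹ • (z - 0) ^ k • iteratedDeriv k h 0
      - (k.factorial : ℂ)⁻¹ • (z - 0) ^ k • iteratedDeriv k h' 0) = 0 := by
    intro k hk
    have h3 := hco k (by omega)
    unfold co at h3
    have hf : (k.factorial : ℂ) ≠ 0 := by exact_mod_cast Nat.factorial_ne_zero k
    have h4 : iteratedDeriv k h 0 = iteratedDeriv k h' 0 := by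
      field_simp at h3
      exact h3
    rw [h4, sub_self]
  have s4 := hasSum_single 0 hterm
  have h5 := s3.unique s4
  rw [h5]
  simp only [Nat.factorial_zero, Nat.cast_one, inv_one, sub_zero, pow_zero, iteratedDeriv_zero,
    one_smul]
  apply Complex.ext
  · simp [hre, hre']
  · simp

end Pool.Agent.H82.Hp
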