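import Mathlib
import Pool.Agent.H82.Hp.Unique

/-!
The extremal functions (`MP_ff17e6_an`).
-/

set_option autoImplicit false

open Metric Set Filter Topology

namespace Pool.Agent.H82.Hp

/-- The integral mean of order `p` of `f` on the circle of radius `r`. -/
noncomputable def mean (p r : ℝ) (f : ℂ → ℂ) : ℝ :=
  ((2 * Real.pi)⁻¹ *
    ∫ θ in (0 : ℝ)..(2 * Real.pi), ‖f (r * Complex.exp (θ * Complex.I))‖ ^ p) ^ (1 / p)

/-- `M_p(f)`, the supremum of the integral means over `0 < r < 1`. -/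
noncomputable def Mp (p : ℝ) (f : ℂ → ℂ) : ENNReal :=
  ⨆ r : Set.Ioo (0 : ℝ) 1, ENNReal.ofReal (mean p r f)

/-- The class `N_p`. -/
def Np (p : ℝ) : Set (ℂ → ℂ) :=
  {f | DifferentiableOn ℂ f (ball 0 1) ∧ (∀ z ∈ ball (0 : ℂ) 1, f z ≠ 0) ∧ Mp p f ≤ 1}

/-- The functions `F_{c,γ}`. -/
noncomputable def Fext (p : ℝ) (n : ℕ) (c γ z : ℂ) : ℂ :=
  c * (2 : ℂ) ^ (-(1 / p : ℝ) : ℂ) * (1 + γ * z ^ n) ^ ((2 / p : ℝ) : ℂ)
    * Complex.exp ((1 - (1 / p : ℝ)) * ((γ * z ^ n - 1) / (γ * z ^ n + 1)))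

lemma mean_eq (p r : ℝ) (f : ℂ → ℂ) :
    mean p r f = (Real.circleAverage (fun z => ‖f z‖ ^ p) 0 r) ^ (1 / p) := by
  unfold mean Real.circleAverage
  simp only [circleMap, zero_add, smul_eq_mul]

lemma avg_nonneg (p r : ℝ) (f : ℂ → ℂ) :
    0 ≤ Real.circleAverage (fun z => ‖f z‖ ^ p) 0 r :=
  Real.circleAverage_nonneg_of_nonneg (fun z _ => by positivity)

lemma Mp_le_iff {p : ℝ} (hp : 0 < p) (f : ℂ → ℂ) :
    Mp p f ≤ 1 ↔ ∀ r : ℝ, 0 < r → r < 1 → Real.circleAverage (fun z => ‖f z‖ ^ p) 0 r ≤ 1 := by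
  unfold Mp
  rw [iSup_le_iff]
  constructor
  · intro h r h0 h1
    have h2 := h ⟨r, h0, h1⟩
    rw [ENNReal.ofReal_le_one, mean_eq] at h2
    have h3 := avg_nonneg p r f
    by_contra hc
    push Not at hc
    have h4 : 1 < (Real.circleAverage (fun z => ‖f z‖ ^ p) 0 r) ^ (1 / p) :=
      Real.one_lt_rpow hc (by positivity)
    exact absurd h2 (not_le.mpr h4)
  · intro h r
    rw [ENNReal.ofReal_le_one, mean_eq]
    exact Real.rpow_le_one (avg_nonneg p r f) (h r r.2.1 r.2.2) (by positivity)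

/-- in terms of a logarithm -/
lemma mem_Np_log {p : ℝ} (hp : 0 < p) {f h : ℂ → ℂ}
    (hfh : ∀ z ∈ ball (0 : ℂ) 1, f z = Complex.exp (h z)) :
    (Mp p f ≤ 1 ↔ ∀ ρ : ℝ, 0 < ρ → ρ < 1 →
      Real.circleAverage (fun z => Real.exp (p * (h z).re)) 0 ρ ≤ 1) := by
  rw [Mp_le_iff hp]
  apply forall_congr'
  intro r
  apply forall_congr'
  intro h0
  apply forall_congr'
  intro h1
  have e1 : EqOn (fun z => ‖f z‖ ^ p) (fun z => Real.exp (p * (h z).re)) (sphere 0 |r|) := by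
    intro z hz
    simp only
    rw [hfh z (mem_ball_of h0 h1 hz), Complex.norm_exp, mul_comm p, Real.exp_mul]
  rw [Real.circleAverage_congr_sphere e1]

/-! ### composition with a power -/

lemma co_comp_pow {η : ℂ → ℂ} (hη : DifferentiableOn ℂ η (ball 0 1)) {n : ℕ} (hn : 1 ≤ n) :
    (∀ k, 1 ≤ k → k < n → co (fun z => η (z ^ n)) k = 0) ∧
      co (fun z => η (z ^ n)) n = deriv η 0 := by
  set D := dslope η 0 with hD
  have hDd : DifferentiableOn ℂ D (ball 0 1) :=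
    (Complex.differentiableOn_dslope (ball_mem_nhds (0 : ℂ) one_pos)).mpr hη
  have hmaps : MapsTo (fun z : ℂ => z ^ n) (ball 0 1) (ball 0 1) := by
    intro z hz
    rw [mem_ball_zero_iff] at hz ⊢
    rw [norm_pow]
    exact pow_lt_one₀ (norm_nonneg z) hz (by omega)
  have hDn : DifferentiableOn ℂ (fun z => D (z ^ n)) (ball 0 1) :=
    hDd.comp (differentiable_pow n).differentiableOn hmaps
  have e1 : (fun z => η (z ^ n)) = fun z => η 0 + ((fun z : ℂ => z ^ n) * fun z => D (z ^ n)) z := by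
    ext z
    have := sub_smul_dslope η 0 (z ^ n)
    simp only [sub_zero, smul_eq_mul] at this
    simp only [Pi.mul_apply]
    rw [hD, this]
    ring
  have hC : ∀ k : ℕ, ContDiffAt ℂ k (fun z => D (z ^ n)) 0 := fun k =>
    (analyticAt_zero hDn).contDiffAt
  have hP : ∀ k : ℕ, ContDiffAt ℂ k (fun z : ℂ => z ^ n) 0 := fun k => by fun_prop
  have e2 : ∀ k : ℕ, 1 ≤ k → k ≤ n → co (fun z => η (z ^ n)) k
      = (if k = n then deriv η 0 else 0) := by
    intro k hk1 hk2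
    rw [e1]
    unfold co
    have hPC : ContDiffAt ℂ k (fun z => ((fun z : ℂ => z ^ n) * fun z => D (z ^ n)) z) 0 :=
      (hP k).mul (hC k)
    rw [iteratedDeriv_fun_add contDiffAt_const hPC, iteratedDeriv_const,
      if_neg (by omega), zero_add]
    have e3 : iteratedDeriv k (fun z => ((fun z : ℂ => z ^ n) * fun z => D (z ^ n)) z) 0
      = iteratedDeriv k ((fun z : ℂ => z ^ n) * fun z => D (z ^ n)) 0 := rfl
    rw [e3, iteratedDeriv_mul (hP k) (hC k)]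
    have e4 : ∀ i ∈ Finset.range (k + 1), (k.choose i : ℂ)
        * iteratedDeriv i (fun z : ℂ => z ^ n) 0 * iteratedDeriv (k - i) (fun z => D (z ^ n)) 0
        = if i = n then (k.choose i : ℂ) * (n.factorial : ℂ)
          * iteratedDeriv (k - i) (fun z => D (z ^ n)) 0 else 0 := by
      intro i _
      rw [iteratedDeriv_fun_pow_zero]
      split_ifs with h <;> simp
    rw [Finset.sum_congr rfl e4, Finset.sum_ite_eq']
    by_cases hkn : k = n
    · subst hkn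
      rw [if_pos (Finset.mem_range.mpr (by omega)), if_pos rfl]
      rw [Nat.choose_self, Nat.sub_self, iteratedDeriv_zero, zero_pow (by omega), hD,
        dslope_same]
      have : (k.factorial : ℂ) ≠ 0 := by exact_mod_cast Nat.factorial_ne_zero k
      field_simp
      push_cast
      ring
    · rw [if_neg (by rw [Finset.mem_range]; omega), if_neg hkn, zero_div]
  constructor
  · intro k hk1 hk2
    rw [e2 k hk1 hk2.le, if_neg (by omega)]
  · rw [e2 n hn le_rfl, if_pos rfl]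

/-! ### the logarithm of `F` -/

/-- `η` -/
noncomputable def etaF (p : ℝ) (c γ w : ℂ) : ℂ :=
  (Complex.log c - (Real.log 2 / p : ℝ)) + ((2 / p : ℝ) : ℂ) * Complex.log (1 + γ * w)
    + (1 - (1 / p : ℝ)) * ((γ * w - 1) / (γ * w + 1))

lemma re_pos_of {γ w : ℂ} (hγ : ‖γ‖ = 1) (hw : w ∈ ball (0 : ℂ) 1) : 0 < (1 + γ * w).re := by
  rw [mem_ball_zero_iff] at hw
  have h1 : ‖γ * w‖ < 1 := by rw [norm_mul, hγ, one_mul]; exact hw
  have h2 := Complex.abs_re_le_norm (γ * w)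
  have h3 := abs_lt.mp (lt_of_le_of_lt h2 h1)
  rw [Complex.add_re, Complex.one_re]
  linarith [h3.1]

lemma ne_of_ball {γ w : ℂ} (hγ : ‖γ‖ = 1) (hw : w ∈ ball (0 : ℂ) 1) : 1 + γ * w ≠ 0 := by
  intro h
  have := re_pos_of hγ hw
  rw [h] at this
  simp at this

lemma hasDerivAt_etaF (p : ℝ) (c : ℂ) {γ w : ℂ} (hγ : ‖γ‖ = 1) (hw : w ∈ ball (0 : ℂ) 1) :
    HasDerivAt (etaF p c γ) (((2 / p : ℝ) : ℂ) * (γ / (1 + γ * w))
      + (1 - (1 / p : ℝ)) * ((γ * (γ * w + 1) - (γ * w - 1) * γ) / (γ * w + 1) ^ 2)) w := by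
  have h0 := ne_of_ball hγ hw
  have h0' : γ * w + 1 ≠ 0 := by rw [add_comm]; exact h0
  have hs : 1 + γ * w ∈ Complex.slitPlane := Or.inl (re_pos_of hγ hw)
  have h1 : HasDerivAt (fun w : ℂ => γ * w) γ w := by
    simpa using (hasDerivAt_id w).const_mul γ
  have h2 : HasDerivAt (fun w : ℂ => 1 + γ * w) γ w := h1.const_add 1
  have h3 : HasDerivAt (fun w : ℂ => Complex.log (1 + γ * w)) (γ / (1 + γ * w)) w := h2.clog hs
  have h4 : HasDerivAt (fun w : ℂ => (γ * w - 1) / (γ * w + 1))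
      ((γ * (γ * w + 1) - (γ * w - 1) * γ) / (γ * w + 1) ^ 2) w :=
    (h1.sub_const 1).div (h1.add_const 1) h0'
  have h5 := ((h3.const_mul ((2 / p : ℝ) : ℂ)).const_add
    (Complex.log c - (Real.log 2 / p : ℝ))).add (h4.const_mul (1 - ((1 / p : ℝ) : ℂ)))
  exact h5

lemma differentiableOn_etaF (p : ℝ) (c : ℂ) {γ : ℂ} (hγ : ‖γ‖ = 1) :
    DifferentiableOn ℂ (etaF p c γ) (ball 0 1) :=
  fun _ hw => (hasDerivAt_etaF p c hγ hw).differentiableAt.differentiableWithinAt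

lemma deriv_etaF (p : ℝ) (c : ℂ) {γ : ℂ} (hγ : ‖γ‖ = 1) : deriv (etaF p c γ) 0 = 2 * γ := by
  rw [(hasDerivAt_etaF p c hγ (mem_ball_self one_pos)).deriv]
  push_cast
  ring

/-- the logarithm of `F` -/
noncomputable def hF (p : ℝ) (n : ℕ) (c γ z : ℂ) : ℂ := etaF p c γ (z ^ n)

lemma pow_mem {n : ℕ} (hn : 1 ≤ n) {z : ℂ} (hz : z ∈ ball (0 : ℂ) 1) : z ^ n ∈ ball (0 : ℂ) 1 := by
  rw [mem_ball_zero_iff] at hz ⊢
  rw [norm_pow]
  exact pow_lt_one₀ (norm_nonneg z) hz (by omega)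

lemma hF_diff (p : ℝ) {n : ℕ} (hn : 1 ≤ n) (c : ℂ) {γ : ℂ} (hγ : ‖γ‖ = 1) :
    DifferentiableOn ℂ (hF p n c γ) (ball 0 1) :=
  (differentiableOn_etaF p c hγ).comp (differentiable_pow n).differentiableOn
    (fun _ hz => pow_mem hn hz)

lemma Fext_eq {p : ℝ} {n : ℕ} (hn : 1 ≤ n) {c γ : ℂ} (hc : ‖c‖ = 1) (hγ : ‖γ‖ = 1)
    {z : ℂ} (hz : z ∈ ball (0 : ℂ) 1) : Fext p n c γ z = Complex.exp (hF p n c γ z) := by
  have hc0 : c ≠ 0 := by intro h; rw [h, norm_zero] at hc; exact zero_ne_one hc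
  have h0 := ne_of_ball hγ (pow_mem hn hz)
  unfold Fext hF etaF
  rw [Complex.exp_add, Complex.exp_add, Complex.exp_sub, Complex.exp_log hc0,
    Complex.cpow_def_of_ne_zero h0, Complex.cpow_def_of_ne_zero (two_ne_zero)]
  have e1 : Complex.log 2 * (-(1 / p : ℝ) : ℂ) = -((Real.log 2 / p : ℝ) : ℂ) := by
    rw [show (2 : ℂ) = ((2 : ℝ) : ℂ) by norm_num, ← Complex.ofReal_log (by norm_num)]
    push_cast
    ring
  rw [e1, Complex.exp_neg]
  rw [mul_comm (Complex.log (1 + γ * z ^ n))]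
  ring

lemma hF_re_le {p : ℝ} (hp : 1 < p) {n : ℕ} (hn : 1 ≤ n) {c γ : ℂ} (hc : ‖c‖ = 1) (hγ : ‖γ‖ = 1)
    {z : ℂ} (hz : z ∈ ball (0 : ℂ) 1) :
    Real.exp (p * (hF p n c γ z).re) ≤ 1 / 2 * ‖1 + γ * z ^ n‖ ^ 2 := by
  have hw := pow_mem hn hz
  have h0 := ne_of_ball hγ hw
  have h0' : γ * z ^ n + 1 ≠ 0 := by rw [add_comm]; exact h0
  have hp0 : 0 < p := by linarith
  set w := γ * z ^ n with hwdef
  have hnpos : 0 < ‖1 + w‖ := norm_pos_iff.mpr h0
  have hwn : ‖w‖ < 1 := by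
    rw [hwdef, norm_mul, hγ, one_mul]
    exact mem_ball_zero_iff.mp hw
  have e1 : ((w - 1) / (w + 1)).re ≤ 0 := by
    have e2 : (w - 1) / (w + 1) = ((1 / Complex.normSq (w + 1) : ℝ) : ℂ)
        * ((w - 1) * (starRingEnd ℂ) (w + 1)) := by
      have h1 : ((Complex.normSq (w + 1) : ℝ) : ℂ) ≠ 0 := by
        exact_mod_cast (Complex.normSq_pos.mpr h0').ne'
      have h2 := Complex.mul_conj (w + 1)
      push_cast
      rw [div_eq_iff h0', one_div, mul_assoc, mul_assoc, mul_comm ((starRingEnd ℂ) (w + 1)), h2]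
      field_simp
    rw [e2, Complex.re_ofReal_mul]
    apply mul_nonpos_of_nonneg_of_nonpos
    · have := (Complex.normSq_pos.mpr h0')
      positivity
    · have h3 : ((w - 1) * (starRingEnd ℂ) (w + 1)).re = ‖w‖ ^ 2 - 1 := by
        rw [Complex.sq_norm, Complex.normSq_apply]
        simp [Complex.mul_re]
        ring
      rw [h3]
      nlinarith [norm_nonneg w]
  have e3 : (hF p n c γ z).re = -(Real.log 2 / p) + 2 / p * Real.log ‖1 + w‖
      + (1 - 1 / p) * ((w - 1) / (w + 1)).re := by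
    unfold hF etaF
    rw [← hwdef, Complex.add_re, Complex.add_re, Complex.sub_re, Complex.ofReal_re,
      Complex.re_ofReal_mul, Complex.log_re, Complex.log_re, hc, Real.log_one]
    have : (1 - ((1 / p : ℝ) : ℂ)) = ((1 - 1 / p : ℝ) : ℂ) := by push_cast; ring
    rw [this, Complex.re_ofReal_mul]
    ring
  have hθ : 0 ≤ 1 - 1 / p := by
    have : 1 / p ≤ 1 := by rw [div_le_one hp0]; exact hp.le
    linarith
  have e4 : p * (hF p n c γ z).re ≤ -Real.log 2 + 2 * Real.log ‖1 + w‖ := by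
    have h5 : (1 - 1 / p) * ((w - 1) / (w + 1)).re ≤ 0 :=
      mul_nonpos_of_nonneg_of_nonpos hθ e1
    have h6 : p * (-(Real.log 2 / p) + 2 / p * Real.log ‖1 + w‖)
        = -Real.log 2 + 2 * Real.log ‖1 + w‖ := by
      field_simp
    rw [e3]
    nlinarith [mul_nonpos_of_nonneg_of_nonpos hp0.le h5]
  calc Real.exp (p * (hF p n c γ z).re)
      ≤ Real.exp (-Real.log 2 + 2 * Real.log ‖1 + w‖) := Real.exp_le_exp.mpr e4
    _ = 1 / 2 * ‖1 + w‖ ^ 2 := by
        rw [Real.exp_add, Real.exp_neg, Real.exp_log (by norm_num),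
          show 2 * Real.log ‖1 + w‖ = Real.log (‖1 + w‖ ^ 2) by rw [Real.log_pow]; norm_num,
          Real.exp_log (by positivity)]
        ring

lemma hF_mean {p : ℝ} (hp : 1 < p) {n : ℕ} (hn : 1 ≤ n) {c γ : ℂ} (hc : ‖c‖ = 1) (hγ : ‖γ‖ = 1)
    (ρ : ℝ) (h0 : 0 < ρ) (h1 : ρ < 1) :
    Real.circleAverage (fun z => Real.exp (p * (hF p n c γ z).re)) 0 ρ ≤ 1 := by
  have hadm : Adm n n 0 1 γ := Or.inr rfl
  have hre := contOn_re (hF_diff p hn c hγ) h0 h1
  have c1 : CircleIntegrable (fun z => Real.exp (p * (hF p n c γ z).re)) 0 ρ := by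
    apply ContinuousOn.circleIntegrable'
    exact Real.continuous_exp.comp_continuousOn (continuousOn_const.mul hre)
  set N := NN (0 * ρ ^ n) (1 * ρ ^ n) with hN
  have hNpos : 0 < N := NN_pos _ _
  have hNle : 1 / 2 * (1 / N) ≤ 1 := by
    rw [hN, NN]
    have h2 : (ρ ^ n) ^ 2 ≤ 1 := by
      rw [← pow_mul]
      exact pow_le_one₀ h0.le h1.le
    rw [one_div_one_div]
    nlinarith
  have c2 : CircleIntegrable (fun z => (1 / 2 * (1 / N)) •
      TT ρ (N * (0 * ρ ^ n) * (1 + 1 * ρ ^ n)) (N * (1 * ρ ^ n)) n n 1 γ z) 0 ρ := by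
    apply ContinuousOn.circleIntegrable'
    exact ContinuousOn.const_smul (continuousOn_TT ρ (N * (0 * ρ ^ n) * (1 + 1 * ρ ^ n))
      (N * (1 * ρ ^ n)) n n 1 γ).continuousOn (1 / 2 * (1 / N))
  calc Real.circleAverage (fun z => Real.exp (p * (hF p n c γ z).re)) 0 ρ
      ≤ Real.circleAverage (fun z => (1 / 2 * (1 / N)) •
          TT ρ (N * (0 * ρ ^ n) * (1 + 1 * ρ ^ n)) (N * (1 * ρ ^ n)) n n 1 γ z) 0 ρ := by
        apply Real.circleAverage_mono c1 c2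
        intro z hz
        refine (hF_re_le hp hn hc hγ (mem_ball_of h0 h1 hz)).trans ?_
        have h3 := normSq_poly' (u := 0) (v := 1) (m := n) (n := n) (α := 1) (β := γ) h0
          (by simp) hγ hadm hz
        rw [← hN] at h3
        rw [← h3, smul_eq_mul]
        have e1 : (1 + ((0 : ℝ) : ℂ) * 1 * z ^ n + ((1 : ℝ) : ℂ) * γ * z ^ n) = 1 + γ * z ^ n := by
          push_cast; ring
        rw [e1]
        apply le_of_eq
        field_simp
    _ = 1 / 2 * (1 / N) := by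
        rw [Real.circleAverage_fun_smul, smul_eq_mul]
        have := avg_TT_one h0 h1 hn hn (N * (0 * ρ ^ n) * (1 + 1 * ρ ^ n)) (N * (1 * ρ ^ n)) 1 γ
        have e2 : Real.circleAverage (fun z => TT ρ (N * (0 * ρ ^ n) * (1 + 1 * ρ ^ n))
          (N * (1 * ρ ^ n)) n n 1 γ z) 0 ρ = 1 := this
        rw [e2, mul_one]
    _ ≤ 1 := hNle

lemma hF_coeffs (p : ℝ) {n : ℕ} (hn : 1 ≤ n) (c : ℂ) {γ : ℂ} (hγ : ‖γ‖ = 1) :
    (∀ k, 1 ≤ k → k < n → co (hF p n c γ) k = 0) ∧ co (hF p n c γ) n = 2 * γ := by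
  obtain ⟨h1, h2⟩ := co_comp_pow (differentiableOn_etaF p c hγ) hn
  exact ⟨h1, by rw [← deriv_etaF p c hγ]; exact h2⟩

lemma hF_re_zero {p : ℝ} (hp : 1 < p) {n : ℕ} (hn : 1 ≤ n) {c γ : ℂ} (hc : ‖c‖ = 1) :
    (hF p n c γ 0).re = (1 - 1 / p) * (Real.log 2 - 1) - Real.log 2 := by
  unfold hF etaF
  rw [zero_pow (by omega), mul_zero, add_zero, Complex.log_one, mul_zero, add_zero, zero_sub,
    zero_add, div_one, Complex.add_re, Complex.sub_re, Complex.ofReal_re, Complex.log_re, hc,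
    Real.log_one]
  have : ((1 - ((1 / p : ℝ) : ℂ)) * -1) = ((-(1 - 1 / p) : ℝ) : ℂ) := by push_cast; ring
  rw [this, Complex.ofReal_re]
  have : p ≠ 0 := by linarith
  field_simp
  ring

end Pool.Agent.H82.Hp
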