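import Mathlib
import Pool.Agent.H82.Hp.Ext

/-!
Assembly (`MP_ff17e6_an`).
-/

set_option autoImplicit false

open Metric Set Filter Topology

namespace Pool.Agent.H82.Hp

lemma value_eq {p q : ℝ} (hpq : 1 / p + 1 / q = 1) :
    (2 / Real.exp 1) ^ (1 / q) = Real.exp ((1 - 1 / p) * (Real.log 2 - 1)) := by
  have h1 : 1 / q = 1 - 1 / p := by linarith
  rw [h1, Real.rpow_def_of_pos (by positivity), Real.log_div (by norm_num) (Real.exp_pos 1).ne',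
    Real.log_exp]
  congr 1
  ring

lemma mem_Np_hF {p : ℝ} (hp : 1 < p) {n : ℕ} (hn : 1 ≤ n) {c γ : ℂ} (hc : ‖c‖ = 1)
    (hγ : ‖γ‖ = 1) : Fext p n c γ ∈ Np p := by
  have hfh : ∀ z ∈ ball (0 : ℂ) 1, Fext p n c γ z = Complex.exp (hF p n c γ z) :=
    fun z hz => Fext_eq hn hc hγ hz
  refine ⟨?_, ?_, ?_⟩
  · have : DifferentiableOn ℂ (fun z => Complex.exp (hF p n c γ z)) (ball 0 1) :=
      (hF_diff p hn c hγ).cexp
    exact this.congr hfh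
  · intro z hz
    rw [hfh z hz]
    exact Complex.exp_ne_zero _
  · rw [mem_Np_log (by linarith) hfh]
    exact hF_mean hp hn hc hγ

lemma co_Fext {p : ℝ} (hp : 1 < p) {n : ℕ} (hn : 1 ≤ n) {c γ : ℂ} (hc : ‖c‖ = 1)
    (hγ : ‖γ‖ = 1) : (∀ k, 1 ≤ k → k < n → co (Fext p n c γ) k = 0) ∧
      ‖co (Fext p n c γ) n‖ = Real.exp ((1 - 1 / p) * (Real.log 2 - 1)) := by
  have hfh : ∀ z ∈ ball (0 : ℂ) 1, Fext p n c γ z = Complex.exp (hF p n c γ z) :=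
    fun z hz => Fext_eq hn hc hγ hz
  obtain ⟨h1, h2⟩ := hF_coeffs p hn c hγ
  obtain ⟨h3, h4⟩ := coeff_conv (hF_diff p hn c hγ) hfh hn h1
  refine ⟨h3, ?_⟩
  rw [h4, h2, co_zero, hfh 0 (mem_ball_self one_pos), norm_mul, Complex.norm_exp,
    hF_re_zero hp hn hc, norm_mul, hγ, mul_one, Real.exp_sub, Real.exp_log (by norm_num)]
  norm_num

/-- The bound and the extremal functions in the sparse class. -/
theorem sparse {p : ℝ} (hp : 1 < p) {n : ℕ} (hn : 1 ≤ n) {f : ℂ → ℂ} (hf : f ∈ Np p)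
    (hs : ∀ k, 1 ≤ k → 2 * k < n → co f k = 0) :
    ‖co f n‖ ≤ Real.exp ((1 - 1 / p) * (Real.log 2 - 1)) ∧
    (‖co f n‖ = Real.exp ((1 - 1 / p) * (Real.log 2 - 1)) ↔
      ∃ c γ : ℂ, ‖c‖ = 1 ∧ ‖γ‖ = 1 ∧ EqOn f (Fext p n c γ) (ball 0 1)) := by
  obtain ⟨hd, h0, hM⟩ := hf
  obtain ⟨h, hh, hfh⟩ := exists_log hd h0
  have hp0 : 0 < p := by linarith
  have hmean := (mem_Np_log hp0 hfh).mp hM
  obtain ⟨h1, h2⟩ := bound_all hp hn hh hfh hmean hs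
  refine ⟨h1, ⟨fun heq => ?_, ?_⟩⟩
  · obtain ⟨β, hβ, hcn, hsm, hre⟩ := h2 heq
    have hone : ‖(1 : ℂ)‖ = 1 := norm_one
    obtain ⟨g1, g2⟩ := hF_coeffs p hn 1 hβ
    have h3 := unique_pair hp hn hβ hh (hF_diff p hn 1 hβ) hmean
      (hF_mean hp hn hone hβ) hcn g2 hsm (fun k hk1 hk2 => g1 k hk1 (by omega)) hre
      (hF_re_zero hp hn hone)
    set θ : ℝ := (h 0).im - (hF p n 1 β 0).im with hθ
    refine ⟨Complex.exp (θ * Complex.I), β, Complex.norm_exp_ofReal_mul_I θ, hβ, ?_⟩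
    intro z hz
    have h4 := h3 z hz
    have h5 : h z = θ * Complex.I + hF p n 1 β z := by
      rw [hθ]
      linear_combination h4
    rw [hfh z hz, h5, Complex.exp_add, ← Fext_eq hn hone hβ hz]
    unfold Fext
    ring
  · rintro ⟨c, γ, hc, hγ, heq⟩
    rw [co_congr heq]
    exact (co_Fext hp hn hc hγ).2

end Pool.Agent.H82.Hp
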